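import Mathlib

/-!
The end of the star argument (MP_be493c_co): a cubic graph without triangles and without
4-cycles, coloured so that every negative vertex has only positive neighbours, every positive
vertex has exactly one positive neighbour, and with two more positive than negative vertices, is
the Petersen graph.
-/

set_option autoImplicit false

namespace Pool.BLE

/-- The Petersen graph of the frozen statement. -/
abbrev Pet : SimpleGraph {s : Finset (Fin 5) // s.card = 2} :=
  SimpleGraph.fromRel (fun s t : {s : Finset (Fin 5) // s.card = 2} => Disjoint s.1 t.1)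

theorem pet_adj (s t : {s : Finset (Fin 5) // s.card = 2}) : Pet.Adj s t ↔ Disjoint s.1 t.1 := by
  unfold Pet
  rw [SimpleGraph.fromRel_adj]
  constructor
  · rintro ⟨_, h | h⟩
    · exact h
    · exact h.symm
  · intro h
    refine ⟨?_, Or.inl h⟩
    rintro rfl
    have h1 : s.1 = ∅ := by simpa using h
    have h2 := s.2
    rw [h1] at h2
    simp at h2

theorem card_pairs5 : Fintype.card {s : Finset (Fin 5) // s.card = 2} = 10 := by decide

section
variable {V : Type*} [Fintype V] [DecidableEq V] (G : SimpleGraph V) [DecidableRel G.Adj]

omit [DecidableEq V] in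
/-- Double counting of the edges between the two colours. -/
theorem card_four (hreg : G.IsRegularOfDegree 3) (c : V → Bool)
    (hN : ∀ v w, c v = false → G.Adj v w → c w = true)
    (hP : ∀ v, c v = true → ((G.neighborFinset v).filter (fun w => c w = true)).card = 1)
    (hcard : (Finset.univ.filter (fun v => c v = true)).card =
      (Finset.univ.filter (fun v => c v = false)).card + 2) :
    (Finset.univ.filter (fun v => c v = false)).card = 4 := by
  have h1 : ∑ v ∈ Finset.univ.filter (fun v => c v = false),
      (Finset.bipartiteAbove G.Adj (Finset.univ.filter (fun v => c v = true)) v).card =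
      ∑ v ∈ Finset.univ.filter (fun v => c v = true),
      (Finset.bipartiteBelow G.Adj (Finset.univ.filter (fun v => c v = false)) v).card :=
    Finset.sum_card_bipartiteAbove_eq_sum_card_bipartiteBelow _
  have h2 : ∀ v ∈ Finset.univ.filter (fun v => c v = false),
      (Finset.bipartiteAbove G.Adj (Finset.univ.filter (fun v => c v = true)) v).card = 3 := by
    intro v hv
    rw [Finset.mem_filter] at hv
    have : Finset.bipartiteAbove G.Adj (Finset.univ.filter (fun v => c v = true)) v =
        G.neighborFinset v := by
      ext w
      simp only [Finset.bipartiteAbove, Finset.mem_filter, Finset.mem_univ, true_and,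
        SimpleGraph.mem_neighborFinset]
      constructor
      · rintro ⟨_, h⟩; exact h
      · intro h; exact ⟨hN v w hv.2 h, h⟩
    rw [this, SimpleGraph.card_neighborFinset_eq_degree]
    exact hreg v
  have h3 : ∀ v ∈ Finset.univ.filter (fun v => c v = true),
      (Finset.bipartiteBelow G.Adj (Finset.univ.filter (fun v => c v = false)) v).card = 2 := by
    intro v hv
    rw [Finset.mem_filter] at hv
    have h4 := Finset.card_filter_add_card_filter_not (s := G.neighborFinset v)
      (fun w => c w = true)
    rw [hP v hv.2, SimpleGraph.card_neighborFinset_eq_degree, hreg v] at h4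
    have : Finset.bipartiteBelow G.Adj (Finset.univ.filter (fun v => c v = false)) v =
        (G.neighborFinset v).filter (fun w => ¬ c w = true) := by
      ext w
      simp only [Finset.bipartiteBelow, Finset.mem_filter, Finset.mem_univ, true_and,
        SimpleGraph.mem_neighborFinset, Bool.not_eq_true]
      constructor
      · rintro ⟨h, h'⟩; exact ⟨h'.symm, h⟩
      · rintro ⟨h, h'⟩; exact ⟨h', h.symm⟩
    rw [this]; omega
  rw [Finset.sum_congr rfl h2, Finset.sum_congr rfl h3, Finset.sum_const, Finset.sum_const,
    smul_eq_mul, smul_eq_mul, hcard] at h1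
  omega

end

theorem petersen_of_struct {V : Type*} [Fintype V] [DecidableEq V] (G : SimpleGraph V)
    [DecidableRel G.Adj] (hreg : G.IsRegularOfDegree 3) (c : V → Bool)
    (hN : ∀ v w, c v = false → G.Adj v w → c w = true)
    (hP : ∀ v, c v = true → ((G.neighborFinset v).filter (fun w => c w = true)).card = 1)
    (hcard : (Finset.univ.filter (fun v => c v = true)).card =
      (Finset.univ.filter (fun v => c v = false)).card + 2)
    (hC : ∀ u v, u ≠ v → ∀ x y, G.Adj u x → G.Adj v x → G.Adj u y → G.Adj v y → x = y)
    (hT : ∀ u v w, G.Adj u v → G.Adj v w → ¬ G.Adj u w) :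
    Nonempty (G ≃g SimpleGraph.fromRel
        (fun s t : {s : Finset (Fin 5) // s.card = 2} => Disjoint s.1 t.1)) := by
  have h4 := card_four G hreg c hN hP hcard
  have hV : Fintype.card V = 10 := by
    have h5 := Finset.card_filter_add_card_filter_not (s := (Finset.univ : Finset V))
      (fun w => c w = true)
    have h6 : (Finset.univ.filter (fun v => ¬ c v = true)) =
        Finset.univ.filter (fun v : V => c v = false) := by
      ext w; simp
    rw [h6, hcard, h4, Finset.card_univ] at h5
    omega
  -- number the negative vertices
  have hcN : Fintype.card {x : V // c x = false} = 4 := by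
    rw [Fintype.card_subtype]; exact h4
  obtain ⟨e⟩ : Nonempty ({x : V // c x = false} ≃ Fin 4) :=
    ⟨Fintype.equivFinOfCardEq hcN⟩
  let A : V → Finset (Fin 4) := fun p => Finset.univ.filter (fun i => G.Adj p (e.symm i).1)
  have hA : ∀ p i, i ∈ A p ↔ G.Adj p (e.symm i).1 := by
    intro p i; simp [A]
  have hAcard : ∀ p, c p = true → (A p).card = 2 := by
    intro p hp
    have h7 := Finset.card_filter_add_card_filter_not (s := G.neighborFinset p)
      (fun w => c w = true)
    rw [hP p hp, SimpleGraph.card_neighborFinset_eq_degree, hreg p] at h7
    have h8 : ((G.neighborFinset p).filter (fun w => ¬ c w = true)).card = 2 := by omega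
    rw [← h8]
    refine Finset.card_bij (fun i _ => (e.symm i).1) ?_ ?_ ?_
    · intro i hi
      rw [Finset.mem_filter, SimpleGraph.mem_neighborFinset]
      refine ⟨(hA p i).1 hi, ?_⟩
      have := (e.symm i).2
      simp [this]
    · intro i _ j _ hij
      exact e.symm.injective (Subtype.ext hij)
    · intro w hw
      rw [Finset.mem_filter, SimpleGraph.mem_neighborFinset] at hw
      have hcw : c w = false := by simpa using hw.2
      refine ⟨e ⟨w, hcw⟩, ?_, ?_⟩
      · rw [hA]; simpa using hw.1
      · simp
  have hAinj : ∀ p q, c p = true → c q = true → A p = A q → p = q := by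
    intro p q hp hq hpq
    by_contra hne
    obtain ⟨i, j, hij, hij'⟩ := Finset.card_eq_two.1 (hAcard p hp)
    have hi : i ∈ A p := by rw [hij']; simp
    have hj : j ∈ A p := by rw [hij']; simp
    have hi' : i ∈ A q := hpq ▸ hi
    have hj' : j ∈ A q := hpq ▸ hj
    have := hC p q hne _ _ ((hA p i).1 hi) ((hA q i).1 hi') ((hA p j).1 hj) ((hA q j).1 hj')
    exact hij (e.symm.injective (Subtype.ext this))
  -- mates have complementary pairs
  have hmate : ∀ p q, c p = true → c q = true → G.Adj p q → A q = (A p)ᶜ := by
    intro p q hp hq hpq
    have hd : Disjoint (A q) (A p) := by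
      rw [Finset.disjoint_left]
      intro i hi hi'
      rw [hA] at hi hi'
      exact hT p q _ hpq hi hi'
    apply Finset.eq_of_subset_of_card_le
    · intro i hi
      rw [Finset.mem_compl]
      exact Finset.disjoint_left.1 hd hi
    · rw [Finset.card_compl, hAcard p hp, hAcard q hq]
      simp
  have hadjP : ∀ p q, c p = true → c q = true → (G.Adj p q ↔ A q = (A p)ᶜ) := by
    intro p q hp hq
    refine ⟨hmate p q hp hq, ?_⟩
    intro h
    obtain ⟨r, hr⟩ := Finset.card_eq_one.1 (hP p hp)
    have hr' : r ∈ (G.neighborFinset p).filter (fun w => c w = true) := by rw [hr]; simp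
    rw [Finset.mem_filter, SimpleGraph.mem_neighborFinset] at hr'
    have h9 := hmate p r hp hr'.2 hr'.1
    have : r = q := hAinj r q hr'.2 hq (by rw [h9, h])
    rw [← this]; exact hr'.1
  -- the map
  let up : Finset (Fin 4) → Finset (Fin 5) := fun s => s.map Fin.castSuccEmb
  have hupcard : ∀ s, (up s).card = s.card := fun s => Finset.card_map _
  have hupdisj : ∀ s t, Disjoint (up s) (up t) ↔ Disjoint s t := by
    intro s t
    exact Finset.disjoint_map _
  have hlast : ∀ s, Fin.last 4 ∉ up s := by
    intro s h
    simp only [up, Finset.mem_map] at h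
    obtain ⟨i, _, hi⟩ := h
    exact absurd hi (by simpa using (Fin.castSucc_lt_last i).ne)
  have hmem : ∀ s i, Fin.castSucc i ∈ up s ↔ i ∈ s := by
    intro s i
    simp only [up, Finset.mem_map]
    constructor
    · rintro ⟨j, hj, hji⟩
      have : j = i := Fin.castSucc_injective _ (by simpa using hji)
      rwa [← this]
    · intro h; exact ⟨i, h, rfl⟩
  let f : V → Finset (Fin 5) := fun v =>
    if h : c v = false then {Fin.castSucc (e ⟨v, h⟩), Fin.last 4} else up (A v)ᶜ
  have hfN : ∀ v (h : c v = false), f v = {Fin.castSucc (e ⟨v, h⟩), Fin.last 4} := by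
    intro v h; simp only [f, dif_pos h]
  have hfP : ∀ v, c v = true → f v = up (A v)ᶜ := by
    intro v h
    have : ¬ c v = false := by simp [h]
    simp only [f, dif_neg this]
  have hfcard : ∀ v, (f v).card = 2 := by
    intro v
    rcases hv : c v with _ | _
    · rw [hfN v hv, Finset.card_pair]
      exact (Fin.castSucc_lt_last _).ne
    · rw [hfP v hv, hupcard, Finset.card_compl, hAcard v hv]
      simp
  let F : V → {s : Finset (Fin 5) // s.card = 2} := fun v => ⟨f v, hfcard v⟩
  have hadj : ∀ v w, G.Adj v w ↔ Disjoint (f v) (f w) := by
    have key : ∀ v w, c v = false → c w = true → (G.Adj v w ↔ Disjoint (f v) (f w)) := by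
      intro v w hv hw
      rw [hfN v hv, hfP w hw]
      constructor
      · intro h
        rw [Finset.disjoint_left]
        intro i hi hi'
        rw [Finset.mem_insert, Finset.mem_singleton] at hi
        rcases hi with rfl | rfl
        · rw [hmem, Finset.mem_compl, hA] at hi'
          apply hi'
          simpa using h.symm
        · exact hlast _ hi'
      · intro h
        have h10 : Fin.castSucc (e ⟨v, hv⟩) ∉ up (A w)ᶜ := by
          refine Finset.disjoint_left.1 h ?_
          simp
        rw [hmem, Finset.mem_compl, not_not, hA] at h10
        simpa using h10.symm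
    intro v w
    rcases hv : c v with _ | _
    · rcases hw : c w with _ | _
      · rw [hfN v hv, hfN w hw]
        constructor
        · intro h
          exact absurd (hN v w hv h) (by simp [hw])
        · intro h
          exfalso
          exact (Finset.disjoint_left.1 h) (show Fin.last 4 ∈ _ by simp) (by simp)
      · exact key v w hv hw
    · rcases hw : c w with _ | _
      · rw [SimpleGraph.adj_comm, disjoint_comm]
        exact key w v hw hv
      · rw [hfP v hv, hfP w hw, hupdisj, hadjP v w hv hw]
        constructor
        · intro h
          rw [h, compl_compl]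
          exact disjoint_compl_left
        · intro h
          have h11 : (A w)ᶜ ⊆ A v := by
            intro i hi
            by_contra hi'
            exact Finset.disjoint_left.1 h (Finset.mem_compl.2 hi') hi
          have h12 : (A w)ᶜ = A v := by
            apply Finset.eq_of_subset_of_card_le h11
            rw [Finset.card_compl, hAcard v hv, hAcard w hw]
            simp
          rw [← h12, compl_compl]
  have hinj : Function.Injective F := by
    intro v w h
    have h : f v = f w := congrArg Subtype.val h
    rcases hv : c v with _ | _
    · rcases hw : c w with _ | _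
      · rw [hfN v hv, hfN w hw] at h
        have h13 : Fin.castSucc (e ⟨v, hv⟩) ∈
            ({Fin.castSucc (e ⟨w, hw⟩), Fin.last 4} : Finset (Fin 5)) := by
          rw [← h]; simp
        rw [Finset.mem_insert, Finset.mem_singleton] at h13
        rcases h13 with h13 | h13
        · have := e.injective (Fin.castSucc_injective _ h13)
          exact congrArg Subtype.val this
        · exact absurd h13 (Fin.castSucc_lt_last _).ne
      · exfalso
        rw [hfN v hv, hfP w hw] at h
        exact hlast (A w)ᶜ (by rw [← h]; simp)
    · rcases hw : c w with _ | _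
      · exfalso
        rw [hfN w hw, hfP v hv] at h
        exact hlast (A v)ᶜ (by rw [h]; simp)
      · rw [hfP v hv, hfP w hw] at h
        have h14 : (A v)ᶜ = (A w)ᶜ := Finset.map_injective _ h
        exact hAinj v w hv hw (compl_injective h14)
  have hbij : Function.Bijective F := by
    rw [Fintype.bijective_iff_injective_and_card]
    refine ⟨hinj, ?_⟩
    rw [hV, card_pairs5]
  refine ⟨⟨Equiv.ofBijective F hbij, ?_⟩⟩
  intro v w
  rw [pet_adj, hadj]
  rfl

end Pool.BLE
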