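import Pool.Agent.BLE.Top13
import Pool.Agent.BLE.End

/-!
The closure argument: a set of centres whose leaves are pendants or have mates all of whose other
neighbours are again centres is everything, and the graph is the Petersen graph.
-/

set_option autoImplicit false

namespace Pool.BLE

open Finset Pool.Agent.IVT Pool.Agent.BLN

variable {V : Type} [Fintype V] [DecidableEq V] {G : SimpleGraph V} [DecidableRel G.Adj]

theorem adj_unique_of_degree_one {p v w : V} (hd : G.degree p = 1) (h1 : G.Adj p v)
    (h2 : G.Adj p w) : v = w := by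
  have h3 : (G.neighborFinset p).card = 1 := hd
  exact Finset.card_le_one.1 (le_of_eq h3) v (by rwa [SimpleGraph.mem_neighborFinset]) w
    (by rwa [SimpleGraph.mem_neighborFinset])

/-- Own neighbours are unique in a valid colouring of a graph with degrees one and three. -/
theorem own_unique (hd : Deg13 G) {g : V → Bool} (hg : Valid3 G g) {v a b : V}
    (ha : G.Adj v a) (hb : G.Adj v b) (ca : g a = g v) (cb : g b = g v) : a = b := by
  have h1 := hg v
  have h2 : (bad G g v).card ≤ 1 := by
    rcases hd v with h3 | h3 <;> omega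
  exact Finset.card_le_one.1 h2 a ((mem_bad G g v a).2 ⟨ha, ca⟩) b ((mem_bad G g v b).2 ⟨hb, cb⟩)

theorem degree_three_of_own (hd : Deg13 G) {g : V → Bool} (hg : Valid3 G g) {v a : V}
    (ha : G.Adj v a) (ca : g a = g v) : G.degree v = 3 ∧ (bad G g v).card = 1 := by
  have h1 := hg v
  have h2 : 1 ≤ (bad G g v).card := Finset.card_pos.2 ⟨a, (mem_bad G g v a).2 ⟨ha, ca⟩⟩
  rcases hd v with h3 | h3
  · omega
  · exact ⟨h3, by omega⟩

/-- The data of a plus centre. -/
def CtrData (G : SimpleGraph V) [DecidableRel G.Adj] (g : V → Bool) (D : V → Prop) (y : V) :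
    Prop :=
  g y = false ∧ ∃ l a : Fin 3 → V, Function.Injective l ∧ (∀ v, G.Adj y v ↔ ∃ i, v = l i) ∧
    (∀ i, g (l i) = true) ∧ ∀ i, G.degree (l i) = 1 ∨
      (G.Adj (l i) (a i) ∧ g (a i) = true ∧ ¬ G.Adj y (a i) ∧
        ∀ u, G.Adj (a i) u → u ≠ l i → D u)

section

variable {g : V → Bool} {D : V → Prop}

theorem CtrData.nbr_true {y v : V} (h : CtrData G g D y) (hv : G.Adj y v) : g v = true := by
  obtain ⟨_, l, a, _, h2, h3, _⟩ := h
  obtain ⟨i, rfl⟩ := (h2 v).1 hv
  exact h3 i

theorem CtrData.degree {y : V} (h : CtrData G g D y) : G.degree y = 3 := by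
  obtain ⟨_, l, a, h1, h2, h3, _⟩ := h
  have h4 : G.neighborFinset y = Finset.univ.image l := by
    ext v
    rw [SimpleGraph.mem_neighborFinset, h2, Finset.mem_image]
    constructor
    · rintro ⟨i, rfl⟩; exact ⟨i, Finset.mem_univ _, rfl⟩
    · rintro ⟨i, _, rfl⟩; exact ⟨i, rfl⟩
  have h5 : G.degree y = (G.neighborFinset y).card := rfl
  rw [h5, h4, Finset.card_image_of_injective _ h1]
  rfl

/-- Data of a true neighbour of a centre. -/
theorem CtrData.leaf (hd : Deg13 G) (hg : Valid3 G g) (hD : ∀ y, D y → CtrData G g D y)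
    {y v : V} (hy : D y) (hv : G.Adj y v) :
    (G.degree v = 1 ∧ ∀ w, G.Adj v w → w = y) ∨
    (G.degree v = 3 ∧ (bad G g v).card = 1 ∧ ∃ k, G.Adj v k ∧ g k = true ∧ G.degree k = 3 ∧
      (¬ G.Adj y k) ∧ (∀ u, G.Adj k u → u ≠ v → D u) ∧ (∀ u, G.Adj v u → u ≠ k → D u)) := by
  obtain ⟨h0, l, a, h1, h2, h3, h4⟩ := hD y hy
  obtain ⟨i, rfl⟩ := (h2 v).1 hv
  rcases h4 i with h5 | ⟨h5, h6, h7, h8⟩
  · left
    exact ⟨h5, fun w hw => adj_unique_of_degree_one h5 hw hv.symm⟩
  · right
    have hk := degree_three_of_own hd hg h5 (by rw [h6, h3 i])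
    have hk' := degree_three_of_own hd hg h5.symm (by rw [h6, h3 i])
    refine ⟨hk.1, hk.2, a i, h5, h6, hk'.1, h7, h8, ?_⟩
    -- another neighbour of the mate
    have hcard : 1 < (G.neighborFinset (a i)).card := by
      have : G.degree (a i) = (G.neighborFinset (a i)).card := rfl
      omega
    obtain ⟨u, hu1, hu2⟩ := Finset.exists_mem_ne hcard (l i)
    rw [SimpleGraph.mem_neighborFinset] at hu1
    have hDu := h8 u hu1 hu2
    obtain ⟨h0', l', a', h1', h2', h3', h4'⟩ := hD u hDu
    obtain ⟨j, hj⟩ := (h2' (a i)).1 hu1.symm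
    rcases h4' j with h9 | ⟨h9, h10, h11, h12⟩
    · rw [← hj, hk'.1] at h9
      exact absurd h9 (by norm_num)
    · rw [← hj] at h9 h12
      have h13 : a' j = l i := own_unique hd hg h9 h5.symm (by rw [h10, h6]) (by rw [h3 i, h6])
      rw [h13] at h12
      intro w hw hne
      exact h12 w hw hne

end

theorem closure (h : Cls13 G) (g : V → Bool) (hg : Valid3 G g) (hs : sgn true g = 2)
    (D : V → Prop) (x : V) (hx : D x) (hD : ∀ y, D y → CtrData G g D y) : IsPet G := by
  classical
  have hd := h.deg
  have hF : ∀ y, D y → g y = false := fun y hy => (hD y hy).1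
  -- everything is reached
  have hstep : ∀ v w, ((g v = false ∧ D v) ∨ (g v = true ∧ ∃ y, D y ∧ G.Adj y v)) → G.Adj v w →
      ((g w = false ∧ D w) ∨ (g w = true ∧ ∃ y, D y ∧ G.Adj y w)) := by
    rintro v w (⟨h1, h2⟩ | ⟨h1, y, h2, h3⟩) hvw
    · right
      exact ⟨(hD v h2).nbr_true hvw, v, h2, hvw⟩
    · rcases CtrData.leaf hd hg hD h2 h3 with ⟨_, h4⟩ | ⟨_, _, k, h4, h5, h6, h7, h8, h9⟩
      · left
        rw [h4 w hvw]
        exact ⟨hF y h2, h2⟩
      · by_cases hwk : w = k
        · right
          rw [hwk]
          have hcard : 1 < (G.neighborFinset k).card := by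
            have : G.degree k = (G.neighborFinset k).card := rfl
            omega
          obtain ⟨u, hu1, hu2⟩ := Finset.exists_mem_ne hcard v
          rw [SimpleGraph.mem_neighborFinset] at hu1
          exact ⟨h5, u, h8 u hu1 hu2, hu1.symm⟩
        · left
          exact ⟨hF w (h9 w hvw hwk), h9 w hvw hwk⟩
  have hall : ∀ w, ((g w = false ∧ D w) ∨ (g w = true ∧ ∃ y, D y ∧ G.Adj y w)) := by
    intro w
    obtain ⟨p⟩ := h.conn.preconnected x w
    have key : ∀ u v : V, G.Walk u v →
        ((g u = false ∧ D u) ∨ (g u = true ∧ ∃ y, D y ∧ G.Adj y u)) →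
        ((g v = false ∧ D v) ∨ (g v = true ∧ ∃ y, D y ∧ G.Adj y v)) := by
      intro u v q
      induction q with
      | nil => exact id
      | cons h1 q ih => exact fun h2 => ih (hstep _ _ h2 h1)
    exact key x w p (Or.inl ⟨hF x hx, hx⟩)
  have hDf : ∀ v, g v = false → D v := by
    intro v hv
    rcases hall v with h1 | h1
    · exact h1.2
    · rw [hv] at h1; exact absurd h1.1 (by simp)
  have hT : ∀ v, g v = true → ∃ y, D y ∧ G.Adj y v := by
    intro v hv
    rcases hall v with h1 | h1
    · rw [hv] at h1; exact absurd h1.1 (by simp)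
    · exact h1.2
  -- the three sets
  set F : Finset V := Finset.univ.filter (fun v => g v = false) with hFdef
  set T : Finset V := Finset.univ.filter (fun v => g v = true) with hTdef
  set T1 : Finset V := T.filter (fun v => G.degree v = 1) with hT1def
  set K : Finset V := T.filter (fun v => ¬ G.degree v = 1) with hKdef
  have hTK : T1.card + K.card = T.card := Finset.card_filter_add_card_filter_not _
  have hcard : T.card = F.card + 2 := by
    have h1 := sgn_true_eq g
    have h2 : (Finset.univ.filter (fun v => g v = false)).card = F.card := rfl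
    have h3 : (Finset.univ.filter (fun v => g v = true)).card = T.card := rfl
    rw [hs, h2, h3] at h1
    omega
  have hcount : 3 * F.card = 2 * K.card + T1.card := by
    have h1 := Finset.sum_card_bipartiteAbove_eq_sum_card_bipartiteBelow
      (s := F) (t := T) (fun y v => G.Adj y v)
    have h2 : ∀ y ∈ F, (Finset.bipartiteAbove (fun y v => G.Adj y v) T y).card = 3 := by
      intro y hy
      have hy' : g y = false := (Finset.mem_filter.1 hy).2
      rw [← (hD y (hDf y hy')).degree]
      have : G.degree y = (G.neighborFinset y).card := rfl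
      rw [this]
      congr 1
      ext v
      rw [Finset.mem_bipartiteAbove, SimpleGraph.mem_neighborFinset]
      exact ⟨fun h => h.2, fun h => ⟨Finset.mem_filter.2 ⟨Finset.mem_univ _,
        (hD y (hDf y hy')).nbr_true h⟩, h⟩⟩
    have h3 : ∀ v ∈ T, (Finset.bipartiteBelow (fun y v => G.Adj y v) F v).card
        = if G.degree v = 1 then 1 else 2 := by
      intro v hv
      have hv' : g v = true := (Finset.mem_filter.1 hv).2
      have h4 : (Finset.bipartiteBelow (fun y v => G.Adj y v) F v) =
          (G.neighborFinset v) \ bad G g v := by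
        ext y
        rw [Finset.mem_bipartiteBelow, Finset.mem_sdiff, SimpleGraph.mem_neighborFinset, mem_bad,
          Finset.mem_filter]
        constructor
        · rintro ⟨⟨_, h5⟩, h6⟩
          exact ⟨h6.symm, fun h7 => by rw [h7.2, hv'] at h5; exact absurd h5 (by simp)⟩
        · rintro ⟨h5, h6⟩
          refine ⟨⟨Finset.mem_univ _, ?_⟩, h5.symm⟩
          have h7 : g y ≠ true := fun h8 => h6 ⟨h5, by rw [h8, hv']⟩
          exact Bool.eq_false_iff.2 h7
      have h5 : bad G g v ⊆ G.neighborFinset v := Finset.filter_subset _ _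
      rw [h4, Finset.card_sdiff_of_subset h5]
      have h6 : (G.neighborFinset v).card = G.degree v := rfl
      rw [h6]
      obtain ⟨y, hy1, hy2⟩ := hT v hv'
      rcases CtrData.leaf hd hg hD hy1 hy2 with ⟨h7, _⟩ | ⟨h7, h8, _⟩
      · have h8 := hg v
        rw [h7] at h8
        rw [if_pos h7, h7]
        omega
      · rw [if_neg (by omega), h7, h8]
    rw [Finset.sum_congr rfl h2, Finset.sum_congr rfl h3, Finset.sum_const, smul_eq_mul,
      Finset.sum_ite, Finset.sum_const, Finset.sum_const, smul_eq_mul, smul_eq_mul] at h1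
    have h4 : (T.filter (fun v => G.degree v = 1)).card = T1.card := rfl
    have h5 : (T.filter (fun v => ¬ G.degree v = 1)).card = K.card := rfl
    rw [h4, h5] at h1
    omega
  -- K injects into the pairs of F
  have hinj : K.card ≤ (F.powersetCard 2).card := by
    apply Finset.card_le_card_of_injOn (fun v => (G.neighborFinset v) \ bad G g v)
    · intro v hv
      have hv1 := Finset.mem_filter.1 (Finset.mem_coe.1 hv)
      have hv' : g v = true := (Finset.mem_filter.1 hv1.1).2
      rw [Finset.mem_coe, Finset.mem_powersetCard]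
      constructor
      · intro y hy
        rw [Finset.mem_sdiff, SimpleGraph.mem_neighborFinset, mem_bad] at hy
        rw [Finset.mem_filter]
        refine ⟨Finset.mem_univ _, ?_⟩
        have h7 : g y ≠ true := fun h8 => hy.2 ⟨hy.1, by rw [h8, hv']⟩
        exact Bool.eq_false_iff.2 h7
      · have h5 : bad G g v ⊆ G.neighborFinset v := Finset.filter_subset _ _
        rw [Finset.card_sdiff_of_subset h5]
        have h6 : (G.neighborFinset v).card = G.degree v := rfl
        obtain ⟨y, hy1, hy2⟩ := hT v hv'
        rcases CtrData.leaf hd hg hD hy1 hy2 with ⟨h7, _⟩ | ⟨h7, h8, _⟩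
        · exact absurd h7 hv1.2
        · rw [h6, h7, h8]
    · intro v hv w hw hvw
      by_contra hne
      have hv1 := Finset.mem_filter.1 (Finset.mem_coe.1 hv)
      have hv' : g v = true := (Finset.mem_filter.1 hv1.1).2
      have h5 : bad G g v ⊆ G.neighborFinset v := Finset.filter_subset _ _
      have h6 : (G.neighborFinset v).card = G.degree v := rfl
      obtain ⟨y, hy1, hy2⟩ := hT v hv'
      rcases CtrData.leaf hd hg hD hy1 hy2 with ⟨h7, _⟩ | ⟨h7, h8, _⟩
      · exact absurd h7 hv1.2
      · have h9 : 1 < ((G.neighborFinset v) \ bad G g v).card := by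
          rw [Finset.card_sdiff_of_subset h5]
          omega
        obtain ⟨a, ha, b, hb, hab⟩ := Finset.one_lt_card.1 h9
        have ha' := ha
        have hb' := hb
        have hvw' : (G.neighborFinset v) \ bad G g v = (G.neighborFinset w) \ bad G g w := hvw
        rw [hvw'] at ha' hb'
        rw [Finset.mem_sdiff, SimpleGraph.mem_neighborFinset] at ha hb ha' hb'
        rcases h.c4 v a w b ha.1 ha'.1.symm hb'.1 hb.1.symm with h10 | h10
        · exact hne h10
        · exact hab h10
  rw [Finset.card_powersetCard] at hinj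
  have hxF : x ∈ F := Finset.mem_filter.2 ⟨Finset.mem_univ _, hF x hx⟩
  have hF1 : 1 ≤ F.card := Finset.card_pos.2 ⟨x, hxF⟩
  have hF4 : F.card ≤ 4 := by omega
  have hT1 : T1.card = 0 := by
    by_contra h0
    have h3 : F.card = 1 ∨ F.card = 2 ∨ F.card = 3 := by omega
    rcases h3 with h3 | h3 | h3
    · -- three pendants
      have hK : K = ∅ := by
        apply Finset.card_eq_zero.1
        omega
      obtain ⟨_, l, a, h4, h5, h6, _⟩ := hD x hx
      have h7 : ∀ i, G.degree (l i) = 1 := by
        intro i
        by_contra h8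
        have h9 : l i ∈ K := Finset.mem_filter.2 ⟨Finset.mem_filter.2 ⟨Finset.mem_univ _, h6 i⟩, h8⟩
        rw [hK] at h9
        exact absurd h9 (Finset.notMem_empty _)
      have h8 := h.pend ((h5 (l 0)).2 ⟨0, rfl⟩) ((h5 (l 1)).2 ⟨1, rfl⟩) (h7 0) (h7 1)
      exact absurd (h4 h8) (by decide)
    · rw [h3] at hinj
      have : Nat.choose 2 2 = 1 := by decide
      omega
    · rw [h3] at hinj
      have : Nat.choose 3 2 = 3 := by decide
      omega
  -- no pendants
  have hreg : G.IsRegularOfDegree 3 := by
    intro v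
    rcases hd v with h1 | h1
    · exfalso
      by_cases hv : g v = true
      · have h2 : v ∈ T1 := Finset.mem_filter.2 ⟨Finset.mem_filter.2 ⟨Finset.mem_univ _, hv⟩, h1⟩
        rw [Finset.card_eq_zero.1 hT1] at h2
        exact absurd h2 (Finset.notMem_empty _)
      · have h2 := (hD v (hDf v (Bool.eq_false_iff.2 hv))).degree
        omega
    · exact h1
  apply petersen_of_struct G hreg g
  · intro v w hv hvw
    exact (hD v (hDf v hv)).nbr_true hvw
  · intro v hv
    obtain ⟨y, hy1, hy2⟩ := hT v hv
    have h2 : (G.neighborFinset v).filter (fun w => g w = true) = bad G g v := by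
      unfold bad
      rw [hv]
    rw [h2]
    rcases CtrData.leaf hd hg hD hy1 hy2 with ⟨h7, _⟩ | ⟨h7, h8, _⟩
    · have := hreg v
      omega
    · exact h8
  · exact hcard
  · intro u v huv a b h1 h2 h3 h4
    rcases h.c4 u a v b h1 h2.symm h4 h3.symm with h5 | h5
    · exact absurd h5 huv
    · exact h5
  · -- no triangles
    have htri : ∀ y v k : V, D y → G.Adj y v → G.Adj v k → G.Adj y k → False := by
      intro y v k hy hyv hvk hyk
      have hv : g v = true := (hD y hy).nbr_true hyv
      have hk : g k = true := (hD y hy).nbr_true hyk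
      rcases CtrData.leaf hd hg hD hy hyv with ⟨h7, _⟩ | ⟨_, _, k', h8, h9, _, h10, _⟩
      · have := hreg v
        omega
      · have h11 : k' = k := own_unique hd hg h8 hvk (by rw [h9, hv]) (by rw [hk, hv])
        rw [h11] at h10
        exact h10 hyk
    intro u v w huv hvw huw
    by_cases hu : g u = true
    · by_cases hv : g v = true
      · by_cases hw : g w = true
        · have := own_unique hd hg huv huw (by rw [hv, hu]) (by rw [hw, hu])
          rw [this] at hvw
          exact G.irrefl hvw
        · exact htri w u v (hDf w (Bool.eq_false_iff.2 hw)) huw.symm huv hvw.symm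
      · exact htri v u w (hDf v (Bool.eq_false_iff.2 hv)) huv.symm huw hvw
    · exact htri u v w (hDf u (Bool.eq_false_iff.2 hu)) huv hvw huw

end Pool.BLE
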