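import Pool.Agent.BLN.Defs

/-!
The conclusion of S11147 (MP_be493c_co) from a balanced valid colouring.
-/

set_option autoImplicit false

namespace Pool.BLE

open Finset Pool.Agent.IVT Pool.Agent.BLN

variable {V : Type} [Fintype V] [DecidableEq V] (G : SimpleGraph V) [DecidableRel G.Adj]

/-- The conclusion of S11147 from a valid colouring with `sgn = 0`. -/
theorem concl_of_valid (h : ∃ (s : Bool) (c : V → Bool), Valid G c ∧ sgn s c = 0) :
    ∃ c : V → Bool,
      (Finset.univ.filter (fun v => c v = true)).card
        = (Finset.univ.filter (fun v => c v = false)).card ∧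
      ∀ v : V, {w : V | (G ⊓ SimpleGraph.fromRel
        (fun a b : V => c a = c b)).Reachable v w}.ncard ≤ 2 := by
  obtain ⟨s, c, hv, hs⟩ := h
  have hs' : sgn true c = 0 := by
    cases s
    · have := sgn_not false c
      rw [hs] at this
      simpa using this
    · exact hs
  refine ⟨c, ?_, comp_le_two G c hv⟩
  have h1 := sgn_true_eq c
  rw [hs'] at h1
  omega

end Pool.BLE
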