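import Mathlib

/-!
Perfect matchings and bridges in cubic graphs: an edge that is the only edge leaving a set of
vertices belongs to every perfect matching, so a vertex is on at most one such edge.
-/

set_option autoImplicit false

namespace Pool.BLE

open Finset

variable {V : Type*} [Fintype V] [DecidableEq V] (G : SimpleGraph V) [DecidableRel G.Adj]

/-- `S` contains `y` but not `x`, and `yx` is the only edge leaving `S`. -/
structure SoleCut (S : Finset V) (y x : V) : Prop where
  mem : y ∈ S
  notMem : x ∉ S
  adj : G.Adj y x
  only : ∀ u ∈ S, ∀ v, v ∉ S → G.Adj u v → u = y ∧ v = x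

omit [Fintype V] in
theorem sum_adj_even (S : Finset V) :
    (∑ p ∈ S ×ˢ S, (if G.Adj p.1 p.2 then (1 : ZMod 2) else 0)) = 0 := by
  apply Finset.sum_involution (fun p _ => (p.2, p.1))
  · intro p _
    by_cases h : G.Adj p.1 p.2
    · simp only [if_pos h, if_pos h.symm]; decide
    · have h' : ¬ G.Adj p.2 p.1 := fun h1 => h h1.symm
      simp only [if_neg h, if_neg h']; decide
  · intro p _ hne
    have h : G.Adj p.1 p.2 := by
      by_contra h
      rw [if_neg h] at hne
      exact hne rfl
    intro heq
    have h1 : p.2 = p.1 := congrArg Prod.fst heq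
    rw [h1] at h
    exact G.irrefl h
  · intro p hp
    rw [Finset.mem_product] at hp ⊢
    exact ⟨hp.2, hp.1⟩
  · intro p _
    rfl

/-- A set with exactly one edge leaving it, in a cubic graph, has odd size. -/
theorem SoleCut.odd {S : Finset V} {y x : V} (hreg : G.IsRegularOfDegree 3)
    (h : SoleCut G S y x) : (S.card : ZMod 2) = 1 := by
  have h1 : ∀ u ∈ S, ((3 : ℕ) : ZMod 2) = (∑ v ∈ S, (if G.Adj u v then (1 : ZMod 2) else 0))
      + (if u = y then 1 else 0) := by
    intro u hu
    have h2 : (G.neighborFinset u).card = 3 := hreg u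
    have h3 : G.neighborFinset u = (S.filter (fun v => G.Adj u v)) ∪ (if u = y then {x} else ∅) := by
      ext v
      rw [SimpleGraph.mem_neighborFinset, Finset.mem_union, Finset.mem_filter]
      constructor
      · intro hv
        by_cases hvS : v ∈ S
        · exact Or.inl ⟨hvS, hv⟩
        · right
          obtain ⟨h4, h5⟩ := h.only u hu v hvS hv
          rw [if_pos h4, h5]
          exact Finset.mem_singleton_self _
      · rintro (h4 | h4)
        · exact h4.2
        · by_cases h5 : u = y
          · rw [if_pos h5, Finset.mem_singleton] at h4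
            rw [h4, h5]
            exact h.adj
          · rw [if_neg h5] at h4
            exact absurd h4 (Finset.notMem_empty _)
    have h6 : Disjoint (S.filter (fun v => G.Adj u v)) (if u = y then {x} else ∅) := by
      by_cases h5 : u = y
      · rw [if_pos h5, Finset.disjoint_singleton_right, Finset.mem_filter]
        rintro ⟨h7, _⟩
        exact h.notMem h7
      · rw [if_neg h5]
        exact Finset.disjoint_empty_right _
    rw [h3, Finset.card_union_of_disjoint h6] at h2
    rw [← h2, Nat.cast_add, Finset.sum_boole]
    congr 1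
    by_cases h5 : u = y
    · rw [if_pos h5, if_pos h5, Finset.card_singleton]; rfl
    · rw [if_neg h5, if_neg h5, Finset.card_empty]; rfl
  have h2 : (∑ u ∈ S, ((3 : ℕ) : ZMod 2)) = 1 := by
    rw [Finset.sum_congr rfl h1, Finset.sum_add_distrib, ← Finset.sum_product',
      sum_adj_even G S, zero_add, Finset.sum_ite_eq' S y, if_pos h.mem]
  rw [Finset.sum_const, nsmul_eq_mul] at h2
  have h3 : ((3 : ℕ) : ZMod 2) = 1 := by decide
  rw [h3, mul_one] at h2
  exact h2

omit [Fintype V] [DecidableRel G.Adj] in
/-- A set which no edge of a perfect matching leaves has even size. -/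
theorem even_of_matching {M : G.Subgraph} (hM : M.IsPerfectMatching) (S : Finset V)
    (h : ∀ u ∈ S, ∀ v, M.Adj u v → v ∈ S) : (S.card : ZMod 2) = 0 := by
  classical
  have hp : ∀ v : V, ∃ w, M.Adj v w := fun v => (hM.1 (hM.2 v)).exists
  choose p hp using hp
  have huniq : ∀ v w, M.Adj v w → w = p v := fun v w hw =>
    (hM.1 (hM.2 v)).unique hw (hp v)
  have h0 : (∑ _u ∈ S, (1 : ZMod 2)) = 0 := by
    apply Finset.sum_involution (fun u _ => p u)
    · intro u _; decide
    · intro u _ _ heq
      have := (hp u).ne
      exact this heq.symm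
    · intro u hu
      exact h u hu _ (hp u)
    · intro u _
      exact (huniq (p u) u (hp u).symm).symm
  rw [Finset.sum_const, nsmul_eq_mul, mul_one] at h0
  exact h0

/-- The only edge leaving a set is in every perfect matching of a cubic graph. -/
theorem SoleCut.mem_matching {S : Finset V} {y x : V} (hreg : G.IsRegularOfDegree 3)
    (h : SoleCut G S y x) {M : G.Subgraph} (hM : M.IsPerfectMatching) : M.Adj y x := by
  by_contra hcon
  have h1 := h.odd G hreg
  have h2 := even_of_matching G hM S (by
    intro u hu v huv
    by_contra hv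
    obtain ⟨h3, h4⟩ := h.only u hu v hv huv.adj_sub
    rw [h3, h4] at huv
    exact hcon huv)
  rw [h1] at h2
  exact one_ne_zero h2

/-- In a cubic graph with a perfect matching at most one edge at `x` is a bridge. -/
theorem SoleCut.unique (hreg : G.IsRegularOfDegree 3) (hM : ∃ M : G.Subgraph, M.IsPerfectMatching)
    {S T : Finset V} {y z x : V} (hS : SoleCut G S y x) (hT : SoleCut G T z x) : y = z := by
  obtain ⟨M, hM⟩ := hM
  exact (hM.1 (hM.2 x)).unique (hS.mem_matching G hreg hM).symm (hT.mem_matching G hreg hM).symm

end Pool.BLE
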