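import Pool.Agent.BLN.IV3c
import Pool.Agent.BLE.Match

/-!
The class of graphs of the end game (degrees `1` and `3`, no four-cycle, every bridge is a pendant
edge, perfect matching) and the reduction of the main theorem for this class to the end game.
-/

set_option autoImplicit false

namespace Pool.BLE

open Finset Pool.Agent.IVT Pool.Agent.BLN

variable {V : Type} [Fintype V] [DecidableEq V] (G : SimpleGraph V) [DecidableRel G.Adj]

/-- The class of graphs of the end game. -/
structure Cls13 : Prop where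
  conn : G.Connected
  deg : Deg13 G
  c4 : C4Free G
  /-- perfect matching -/
  pm : ∃ m : V → V, (∀ v, m (m v) = v) ∧ ∀ v, G.Adj v (m v)
  /-- every bridge is a pendant edge -/
  cut : ∀ (T : Finset V) (y x : V), SoleCut G T y x → T.card = 1 ∨ Tᶜ.card = 1

variable {G}

/-- A vertex has at most one pendant neighbour. -/
theorem Cls13.pend (h : Cls13 G) {v p q : V} (hp : G.Adj v p) (hq : G.Adj v q)
    (dp : G.degree p = 1) (dq : G.degree q = 1) : p = q := by
  obtain ⟨m, hm, hadj⟩ := h.pm
  have key : ∀ p : V, G.degree p = 1 → G.Adj v p → m p = v := by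
    intro p dp hp
    have h1 : (G.neighborFinset p).card = 1 := dp
    rw [Finset.card_eq_one] at h1
    obtain ⟨u, hu⟩ := h1
    have h2 : m p ∈ G.neighborFinset p := by
      rw [SimpleGraph.mem_neighborFinset]; exact hadj p
    have h3 : v ∈ G.neighborFinset p := by
      rw [SimpleGraph.mem_neighborFinset]; exact hp.symm
    rw [hu, Finset.mem_singleton] at h2 h3
    rw [h2, h3]
  have h1 := key p dp hp
  have h2 := key q dq hq
  have h3 := hm p
  rw [h1, ← h2, hm q] at h3
  exact h3.symm

/-- The partner of a vertex with a pendant neighbour is the pendant. -/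
theorem Cls13.pm_pend {m : V → V} (hadj : ∀ v, G.Adj v (m v)) (hm : ∀ v, m (m v) = v) {v p : V}
    (hp : G.Adj v p) (dp : G.degree p = 1) : m v = p := by
  have h1 : (G.neighborFinset p).card = 1 := dp
  rw [Finset.card_eq_one] at h1
  obtain ⟨u, hu⟩ := h1
  have h2 : m p ∈ G.neighborFinset p := by
    rw [SimpleGraph.mem_neighborFinset]; exact hadj p
  have h3 : v ∈ G.neighborFinset p := by
    rw [SimpleGraph.mem_neighborFinset]; exact hp.symm
  rw [hu, Finset.mem_singleton] at h2 h3
  rw [h3, ← h2, hm]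

/-- There is no triangle whose three outer neighbours all have pendants. -/
theorem Cls13.no_triangle (h : Cls13 G) {t o p : Fin 3 → V} (ht : Function.Injective t)
    (hnb : ∀ i v, G.Adj (t i) v → v = o i ∨ ∃ j, v = t j)
    (hop : ∀ i, G.Adj (o i) (p i)) (hpt : ∀ i j, p i ≠ t j) (hp : ∀ i, G.degree (p i) = 1) : False := by
  obtain ⟨m, hm, hadj⟩ := h.pm
  have h1 : ∀ i, ∃ j, m (t i) = t j := by
    intro i
    rcases hnb i _ (hadj (t i)) with h2 | h2
    · exfalso
      have h3 := hm (t i)
      rw [h2, Cls13.pm_pend hadj hm (hop i) (hp i)] at h3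
      exact hpt i i h3
    · exact h2
  choose f hf using h1
  have hff : ∀ i, f (f i) = i := by
    intro i
    apply ht
    rw [← hf, ← hf, hm]
  have hfi : ∀ i, f i ≠ i := by
    intro i h2
    have h3 := hadj (t i)
    rw [hf, h2] at h3
    exact G.irrefl h3
  have h0 := hff 0
  have h1 := hff 1
  have h2 := hff 2
  have h3 := hfi 0
  have h4 := hfi 1
  have h5 := hfi 2
  revert h0 h1 h2 h3 h4 h5
  generalize hf0 : f 0 = a
  generalize hf1 : f 1 = b
  generalize hf2 : f 2 = c
  intro h0 h1 h2 h3 h4 h5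
  fin_cases a <;> fin_cases b <;> fin_cases c <;> simp_all

/-- The cut condition on the number of edges leaving a set. -/
theorem cut_of_card
    (hcut : ∀ T : Finset V, ((Finset.univ ×ˢ Finset.univ).filter
      (fun p : V × V => p.1 ∈ T ∧ p.2 ∉ T ∧ G.Adj p.1 p.2)).card = 1 → T.card = 1 ∨ Tᶜ.card = 1)
    (T : Finset V) (y x : V) (h : SoleCut G T y x) : T.card = 1 ∨ Tᶜ.card = 1 := by
  apply hcut
  rw [Finset.card_eq_one]
  refine ⟨(y, x), ?_⟩
  ext p
  obtain ⟨u, v⟩ := p
  simp only [Finset.mem_filter, Finset.mem_product, Finset.mem_univ, true_and,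
    Finset.mem_singleton, Prod.mk.injEq]
  constructor
  · rintro ⟨h1, h2, h3⟩
    exact h.only u h1 v h2 h3
  · rintro ⟨rfl, rfl⟩
    exact ⟨h.mem, h.notMem, h.adj⟩

/-- A set with exactly one edge leaving it has one element or is the complement of one. -/
theorem Cls13.cut_false (h : Cls13 G) {T : Finset V} {y x : V} (hT : SoleCut G T y x)
    (h1 : 2 ≤ T.card) {u v : V} (hu : u ∉ T) (hv : v ∉ T) (huv : u ≠ v) : False := by
  rcases h.cut T y x hT with h2 | h2
  · omega
  · have h3 := Finset.card_le_one.1 (le_of_eq h2) u (Finset.mem_compl.2 hu) v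
      (Finset.mem_compl.2 hv)
    exact huv h3

variable (G)

/-- The isomorphism with the Petersen graph, as in S11147. -/
def IsPet : Prop := Nonempty (G ≃g SimpleGraph.fromRel
        (fun s t : {s : Finset (Fin 5) // s.card = 2} => Disjoint s.1 t.1))

/-- The statement of the end game. -/
def EndGame : Prop :=
  ∀ (V : Type) [Fintype V] [DecidableEq V] (G : SimpleGraph V) [DecidableRel G.Adj],
    Cls13 G → NoBal3 G → IsPet G

/-- The main theorem for the class from the end game. -/
theorem main13_of_end (hend : EndGame)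
    (V : Type) [Fintype V] [DecidableEq V] (G : SimpleGraph V) [DecidableRel G.Adj]
    (hconn : G.Connected) (hdeg : ∀ v, G.degree v = 1 ∨ G.degree v = 3) (hC : C4Free G)
    (m : V → V) (hm : ∀ v, m (m v) = v) (hadj : ∀ v, G.Adj v (m v))
    (hcut : ∀ T : Finset V, ((Finset.univ ×ˢ Finset.univ).filter
      (fun p : V × V => p.1 ∈ T ∧ p.2 ∉ T ∧ G.Adj p.1 p.2)).card = 1 → T.card = 1 ∨ Tᶜ.card = 1)
    (hP : IsEmpty (G ≃g SimpleGraph.fromRel
        (fun s t : {s : Finset (Fin 5) // s.card = 2} => Disjoint s.1 t.1))) :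
    ∃ c : V → Bool, (∀ v, 2 * (bad G c v).card < G.degree v) ∧ sgn true c = 0 := by
  by_contra hcon
  have hB : NoBal3 G := fun g hg h0 => hcon ⟨g, hg, h0⟩
  obtain ⟨e⟩ := hend V G ⟨hconn, hdeg, hC, ⟨m, hm, hadj⟩, cut_of_card hcut⟩ hB
  exact hP.false e

end Pool.BLE
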