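import Pool.Agent.BLN.Red.Reduce
import Pool.Agent.BLN.LT
import Pool.Agent.BLE.Top13

/-!
S11147 from the local facts `Loc`.
-/

set_option autoImplicit false

namespace Pool.BLE

open Finset Pool.Agent.IVT Pool.Agent.BLN

/-- The local facts for all graphs of the class without balanced colouring. -/
def AllLoc : Prop :=
  ∀ (V : Type) [Fintype V] [DecidableEq V] (G : SimpleGraph V) [DecidableRel G.Adj],
    Cls13 G → NoBal3 G → ¬ IsPet G → Loc G

theorem endGame_of_loc (h : AllLoc) : EndGame := by
  intro V _ _ G _ hcls hB
  exact isPet_of_loc hcls hB (fun hP => h V G hcls hB hP)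

theorem main13_of_endGame (hend : EndGame) : Pool.Agent.BLN.Red.Main13 := by
  intro V _ _ G _ hconn hdeg hC m hm hadj hcut hP
  exact main13_of_end hend V G hconn hdeg hC m hm hadj hcut hP

/-- The statement of S11147 from the end game. -/
theorem s11147_of_endGame (hend : EndGame) :
    ∀ (V : Type) [Fintype V] [DecidableEq V] (G : SimpleGraph V) [DecidableRel G.Adj],
      G.Connected → G.IsRegularOfDegree 3 → (∃ M : G.Subgraph, M.IsPerfectMatching) →
      IsEmpty (G ≃g SimpleGraph.fromRel
        (fun s t : {s : Finset (Fin 5) // s.card = 2} => Disjoint s.1 t.1)) →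
      ∃ c : V → Bool,
        (Finset.univ.filter (fun v => c v = true)).card
          = (Finset.univ.filter (fun v => c v = false)).card ∧
        ∀ v : V, {w : V | (G ⊓ SimpleGraph.fromRel
          (fun a b : V => c a = c b)).Reachable v w}.ncard ≤ 2 :=
  Pool.Agent.BLN.Red.s11147_of_main13 (main13_of_endGame hend)

end Pool.BLE
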