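import Pool.Agent.BLE.End

/-!
An injective homomorphism from the Petersen graph to a connected cubic graph is an isomorphism;
the hexagon case of the star argument (MP_be493c_co).
-/

set_option autoImplicit false

namespace Pool.BLE

/-- Vertices of the Petersen graph. -/
abbrev PetV : Type := {s : Finset (Fin 5) // s.card = 2}

theorem pet_deg : ∀ s : PetV, (Finset.univ.filter (fun t : PetV => Disjoint s.1 t.1)).card = 3 := by
  decide

/-- An injective homomorphism from the Petersen graph to a connected cubic graph is an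
isomorphism. -/
theorem petersen_of_hom {V : Type*} [Fintype V] [DecidableEq V] (G : SimpleGraph V)
    [DecidableRel G.Adj] (hconn : G.Connected) (hreg : G.IsRegularOfDegree 3)
    (g : PetV → V) (hg : Function.Injective g)
    (hom : ∀ s t : PetV, Disjoint s.1 t.1 → G.Adj (g s) (g t)) :
    Nonempty (G ≃g SimpleGraph.fromRel
        (fun s t : {s : Finset (Fin 5) // s.card = 2} => Disjoint s.1 t.1)) := by
  classical
  -- the neighbours of `g s` are the images of the neighbours of `s`
  have hnb : ∀ s : PetV, G.neighborFinset (g s) =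
      (Finset.univ.filter (fun t : PetV => Disjoint s.1 t.1)).image g := by
    intro s
    symm
    apply Finset.eq_of_subset_of_card_le
    · intro w hw
      rw [Finset.mem_image] at hw
      obtain ⟨t, ht, rfl⟩ := hw
      rw [SimpleGraph.mem_neighborFinset]
      exact hom s t (Finset.mem_filter.1 ht).2
    · rw [Finset.card_image_of_injective _ hg, pet_deg, SimpleGraph.card_neighborFinset_eq_degree,
        hreg (g s)]
  have hadj : ∀ s w, G.Adj (g s) w ↔ ∃ t : PetV, Disjoint s.1 t.1 ∧ g t = w := by
    intro s w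
    rw [← SimpleGraph.mem_neighborFinset, hnb, Finset.mem_image]
    constructor
    · rintro ⟨t, ht, rfl⟩
      exact ⟨t, (Finset.mem_filter.1 ht).2, rfl⟩
    · rintro ⟨t, ht, rfl⟩
      exact ⟨t, Finset.mem_filter.2 ⟨Finset.mem_univ _, ht⟩, rfl⟩
  -- surjectivity from connectedness
  have hsurj : Function.Surjective g := by
    have s0 : PetV := ⟨{0, 1}, by decide⟩
    intro w
    obtain ⟨p⟩ := hconn.preconnected (g s0) w
    have : ∀ u v : V, G.Walk u v → (∃ s, g s = u) → ∃ s, g s = v := by
      intro u v q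
      induction q with
      | nil => exact id
      | cons h q ih =>
        rintro ⟨s, rfl⟩
        obtain ⟨t, _, ht⟩ := (hadj s _).1 h
        exact ih ⟨t, ht⟩
    exact this _ _ p ⟨s0, rfl⟩
  refine ⟨(⟨(Equiv.ofBijective g ⟨hg, hsurj⟩), ?_⟩ : SimpleGraph.fromRel
        (fun s t : {s : Finset (Fin 5) // s.card = 2} => Disjoint s.1 t.1) ≃g G).symm⟩
  intro s t
  show G.Adj (g s) (g t) ↔ _
  rw [hadj]
  change _ ↔ Pet.Adj s t
  rw [pet_adj]
  constructor
  · rintro ⟨t', h, h'⟩
    rw [← hg h']; exact h
  · intro h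
    exact ⟨t, h, rfl⟩

/-- Numbering of the vertices of the Petersen graph: centre, three leaves, `a`, `b`. -/
def code (s : PetV) : Fin 10 :=
  if s.1 = {0, 1} then 0
  else if s.1 = {3, 4} then 1
  else if s.1 = {2, 4} then 2
  else if s.1 = {2, 3} then 3
  else if s.1 = {0, 2} then 4
  else if s.1 = {0, 3} then 5
  else if s.1 = {0, 4} then 6
  else if s.1 = {1, 2} then 7
  else if s.1 = {1, 3} then 8
  else 9

/-- The adjacency table. -/
def tab (i j : Fin 10) : Bool :=
  ((i, j) ∈ ([(0, 1), (0, 2), (0, 3), (1, 4), (1, 7), (2, 5), (2, 8), (3, 6), (3, 9), (4, 8),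
    (4, 9), (5, 7), (5, 9), (6, 7), (6, 8)] : List (Fin 10 × Fin 10)))

theorem code_inj : ∀ s t : PetV, code s = code t → s = t := by decide

theorem code_tab : ∀ s t : PetV, Disjoint s.1 t.1 →
    tab (code s) (code t) = true ∨ tab (code t) (code s) = true := by decide

/-- The hexagon case: a star with centre `x`, leaves `l i`, their other neighbours `a i`, `b i`,
and all six edges `a i - b j` with `i ≠ j`: the Petersen graph. -/
theorem petersen_of_hexagon {V : Type*} [Fintype V] [DecidableEq V] (G : SimpleGraph V)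
    [DecidableRel G.Adj] (hconn : G.Connected) (hreg : G.IsRegularOfDegree 3)
    (x : V) (l a b : Fin 3 → V)
    (hl : Function.Injective l) (ha : Function.Injective a) (hb : Function.Injective b)
    (hxa : ∀ i, x ≠ a i) (hxb : ∀ i, x ≠ b i)
    (hla : ∀ i j, l i ≠ a j) (hlb : ∀ i j, l i ≠ b j) (hab : ∀ i j, a i ≠ b j)
    (axl : ∀ i, G.Adj x (l i)) (ala : ∀ i, G.Adj (l i) (a i)) (alb : ∀ i, G.Adj (l i) (b i))
    (aab : ∀ i j, i ≠ j → G.Adj (a i) (b j)) :
    Nonempty (G ≃g SimpleGraph.fromRel
        (fun s t : {s : Finset (Fin 5) // s.card = 2} => Disjoint s.1 t.1)) := by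
  classical
  have hxl : ∀ i, x ≠ l i := fun i => (axl i).ne
  let f : Fin 10 → V := ![x, l 0, l 1, l 2, a 0, a 1, a 2, b 0, b 1, b 2]
  have hf : Function.Injective f := by
    have hl' : ∀ i j, i ≠ j → l i ≠ l j := fun i j h h' => h (hl h')
    have ha' : ∀ i j, i ≠ j → a i ≠ a j := fun i j h h' => h (ha h')
    have hb' : ∀ i j, i ≠ j → b i ≠ b j := fun i j h h' => h (hb h')
    intro i j hij
    fin_cases i <;> fin_cases j <;> first
      | rfl
      | (exfalso
         simp only [f, Fin.isValue] at hij
         first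
           | exact hxl _ hij
           | exact hxl _ hij.symm
           | exact hxa _ hij
           | exact hxa _ hij.symm
           | exact hxb _ hij
           | exact hxb _ hij.symm
           | exact hla _ _ hij
           | exact hla _ _ hij.symm
           | exact hlb _ _ hij
           | exact hlb _ _ hij.symm
           | exact hab _ _ hij
           | exact hab _ _ hij.symm
           | exact hl' _ _ (by decide) hij
           | exact ha' _ _ (by decide) hij
           | exact hb' _ _ (by decide) hij)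
  have htab : ∀ i j, tab i j = true → G.Adj (f i) (f j) := by
    intro i j h
    simp only [tab, decide_eq_true_eq, List.mem_cons, Prod.mk.injEq, List.not_mem_nil,
      or_false] at h
    rcases h with ⟨rfl, rfl⟩ | ⟨rfl, rfl⟩ | ⟨rfl, rfl⟩ | ⟨rfl, rfl⟩ | ⟨rfl, rfl⟩ | ⟨rfl, rfl⟩ |
      ⟨rfl, rfl⟩ | ⟨rfl, rfl⟩ | ⟨rfl, rfl⟩ | ⟨rfl, rfl⟩ | ⟨rfl, rfl⟩ | ⟨rfl, rfl⟩ | ⟨rfl, rfl⟩ |
      ⟨rfl, rfl⟩ | ⟨rfl, rfl⟩
    · exact axl 0
    · exact axl 1
    · exact axl 2
    · exact ala 0
    · exact alb 0
    · exact ala 1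
    · exact alb 1
    · exact ala 2
    · exact alb 2
    · exact aab 0 1 (by decide)
    · exact aab 0 2 (by decide)
    · exact aab 1 0 (by decide)
    · exact aab 1 2 (by decide)
    · exact aab 2 0 (by decide)
    · exact aab 2 1 (by decide)
  refine petersen_of_hom G hconn hreg (fun s => f (code s)) (fun s t h => code_inj s t (hf h)) ?_
  intro s t h
  rcases code_tab s t h with h1 | h1
  · exact htab _ _ h1
  · exact (htab _ _ h1).symm

end Pool.BLE
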