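import Pool.Agent.BLN.IV3c

/-!
The reaction lemma: two colourings that agree outside a star and differ on the star, and have at
most one flippable vertex, react in parallel; in the absence of balanced colourings the reaction
can only end by flipping back the flipped special vertex of the star.
-/

set_option autoImplicit false
set_option linter.unusedSectionVars false

namespace Pool.BLE

open Finset Pool.Agent.IVT Pool.Agent.BLN

variable {V : Type} [Fintype V] [DecidableEq V] {G : SimpleGraph V} [DecidableRel G.Adj]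

/-! ### Tools on flips -/

theorem bad_mono {d d' : V → Bool} {v : V} (hv : d' v = d v)
    (h : ∀ w, G.Adj v w → d' w = d v → d w = d v) : bad G d' v ⊆ bad G d v := by
  intro w hw
  rw [mem_bad] at hw ⊢
  exact ⟨hw.1, h w hw.1 (hw.2.trans hv)⟩

theorem Fp_of_bad_subset {d d' : V → Bool} {v : V} (h : bad G d' v ⊆ bad G d v)
    (hf : Fp G d' v) : Fp G d v := by
  unfold Fp at hf ⊢
  have := Finset.card_le_card h
  omega

theorem not_Fp_flip {d : V → Bool} {v : V} (h : Fp G d v) : ¬ Fp G (flip d v) v := by
  have h1 := card_bad_flip_self3 G d v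
  unfold Fp at h ⊢
  omega

theorem not_Fp_of_card_le_one {d : V → Bool} {v : V}
    (h3 : G.degree v = 3) (h : (bad G d v).card ≤ 1) : ¬ Fp G d v := by
  unfold Fp
  omega

theorem not_Fp_of_empty {d : V → Bool} {v : V} (h : bad G d v = ∅) : ¬ Fp G d v := by
  unfold Fp
  rw [h, Finset.card_empty]
  omega

/-- Flipping a vertex does not change the flippability of the other vertices of its colour, if
they are not adjacent; in general it can only make neighbours of the other colour flippable. -/
theorem Fp_flip_imp {d : V → Bool} {y w : V} (hw : Fp G (flip d y) w) (hne : w ≠ y) :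
    Fp G d w ∨ (G.Adj w y ∧ d w ≠ d y) := by
  by_cases h : G.Adj w y ∧ d w ≠ d y
  · exact Or.inr h
  · left
    have h1 := card_bad_flip_le G d hne h
    unfold Fp at hw ⊢
    omega

/-- A flippable vertex has at most one neighbour of the other colour. -/
theorem Fp_opp_unique (hd : Deg13 G) {d : V → Bool} {y a b : V} (hy : Fp G d y)
    (ha : G.Adj y a) (hb : G.Adj y b) (ca : d a ≠ d y) (cb : d b ≠ d y) : a = b := by
  by_contra hab
  have h1 : ({a, b} : Finset V) ⊆ G.neighborFinset y \ bad G d y := by
    intro w hw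
    rw [Finset.mem_insert, Finset.mem_singleton] at hw
    rw [Finset.mem_sdiff, SimpleGraph.mem_neighborFinset, mem_bad]
    rcases hw with rfl | rfl
    · exact ⟨ha, fun h => ca h.2⟩
    · exact ⟨hb, fun h => cb h.2⟩
  have h2 := Finset.card_le_card h1
  have h5 : bad G d y ⊆ G.neighborFinset y := Finset.filter_subset _ _
  rw [Finset.card_pair hab, Finset.card_sdiff_of_subset h5] at h2
  have h3 : (G.neighborFinset y).card = G.degree y := rfl
  rw [h3] at h2
  unfold Fp at hy
  rcases hd y with h4 | h4 <;> omega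

theorem degree_three_of_two (hd : Deg13 G) {v a b : V} (ha : G.Adj v a) (hb : G.Adj v b)
    (hab : a ≠ b) : G.degree v = 3 := by
  rcases hd v with h | h
  · exfalso
    have h3 : (G.neighborFinset v).card = 1 := h
    exact hab (Finset.card_le_one.1 (le_of_eq h3) a (by rwa [SimpleGraph.mem_neighborFinset]) b
      (by rwa [SimpleGraph.mem_neighborFinset]))
  · exact h

/-- Two distinct neighbours of the other colour: not flippable. -/
theorem not_Fp_of_two_opp (hd : Deg13 G) {d : V → Bool} {y a b : V} (hab : a ≠ b)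
    (ha : G.Adj y a) (hb : G.Adj y b) (ca : d a ≠ d y) (cb : d b ≠ d y) : ¬ Fp G d y :=
  fun h => hab (Fp_opp_unique hd h ha hb ca cb)

/-! ### The twin colouring -/

/-- The twin of `d`: the centre gets the colour `true`, the leaves other than `i0` the colour
`false`. -/
def tw (x : V) (l : Fin 3 → V) (i0 : Fin 3) (d : V → Bool) : V → Bool :=
  fun v => if v = x then true else if (∃ j, j ≠ i0 ∧ v = l j) then false else d v

section

variable {c : V → Bool} {x : V} {l a b : Fin 3 → V} (st : Star3 G c x l a b) (i0 : Fin 3)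

theorem tw_x (d : V → Bool) : tw x l i0 d x = true := by simp [tw]

theorem tw_rest {d : V → Bool} {v : V} (hv : v ∈ rest x l) : tw x l i0 d v = d v := by
  rw [mem_rest] at hv
  unfold tw
  rw [if_neg hv.1, if_neg]
  rintro ⟨j, _, h⟩
  exact hv.2 j h

include st in
theorem tw_l {d : V → Bool} {j : Fin 3} (hj : j ≠ i0) : tw x l i0 d (l j) = false := by
  unfold tw
  rw [if_neg (st.l_ne_x j), if_pos ⟨j, hj, rfl⟩]

include st in
theorem tw_l0 {d : V → Bool} : tw x l i0 d (l i0) = d (l i0) := by
  unfold tw
  rw [if_neg (st.l_ne_x i0), if_neg]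
  rintro ⟨j, hj, h⟩
  exact hj (st.l_inj h).symm

theorem flip_tw {d : V → Bool} {y : V} (hy : y ∈ rest x l) :
    flip (tw x l i0 d) y = tw x l i0 (flip d y) := by
  funext v
  have hy' := mem_rest.1 hy
  by_cases hv : v = y
  · subst hv
    rw [flip_same, tw_rest i0 hy, tw_rest i0 hy, flip_same]
  · rw [flip_ne _ hv]
    unfold tw
    rw [flip_ne _ hv]

theorem three_cases : ∀ i0 : Fin 3, ∃ j1 j2 : Fin 3, j1 ≠ i0 ∧ j2 ≠ i0 ∧ j1 ≠ j2 ∧
    ∀ j, j = i0 ∨ j = j1 ∨ j = j2 := by decide

include st in
theorem sgn_tw {d : V → Bool} (hx : d x = false) (hl : ∀ i, d (l i) = true) :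
    sgn true (tw x l i0 d) = sgn true d - 2 := by
  obtain ⟨j1, j2, h1, h2, h12, hall⟩ := three_cases i0
  have hl12 : l j1 ≠ l j2 := fun h => h12 (st.l_inj h)
  have hx1 := st.l_ne_x j1
  have hx2 := st.l_ne_x j2
  have e : tw x l i0 d = flip (flip (flip d x) (l j1)) (l j2) := by
    funext v
    by_cases hv : v = x
    · subst hv
      rw [tw_x, flip_ne _ hx2.symm, flip_ne _ hx1.symm, flip_same, hx]
      rfl
    · by_cases hv1 : v = l j1
      · subst hv1
        rw [tw_l st i0 h1, flip_ne _ hl12, flip_same, flip_ne _ hx1, hl]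
        rfl
      · by_cases hv2 : v = l j2
        · subst hv2
          rw [tw_l st i0 h2, flip_same, flip_ne _ hv1, flip_ne _ hx2, hl]
          rfl
        · rw [flip_ne _ hv2, flip_ne _ hv1, flip_ne _ hv]
          unfold tw
          rw [if_neg hv, if_neg]
          rintro ⟨j, hj, h⟩
          rcases hall j with rfl | rfl | rfl
          · exact hj rfl
          · exact hv1 h
          · exact hv2 h
  rw [e, sgn_flip, sgn_flip, sgn_flip, flip_ne _ hl12.symm, flip_ne _ hx2, flip_ne _ hx1, hl, hl, hx]
  simp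
  ring

/-! ### States -/

/-- The common conditions on a state. -/
structure St (c : V → Bool) (x : V) (l a b : Fin 3 → V) (i0 : Fin 3) (G : SimpleGraph V)
    [DecidableRel G.Adj] (d : V → Bool) : Prop where
  dx : d x = false
  dl : ∀ i, d (l i) = true
  da0 : d (a i0) = false
  db0 : d (b i0) = false
  da : ∀ j, j ≠ i0 → a j ≠ x → d (a j) = true
  db : ∀ j, j ≠ i0 → b j ≠ x → d (b j) = false
  bb : bad G d (b i0) = ∅

/-- A state in which a vertex of colour `true` may be flippable. -/
structure CSt (c : V → Bool) (x : V) (l a b : Fin 3 → V) (i0 : Fin 3) (G : SimpleGraph V)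
    [DecidableRel G.Adj] (d : V → Bool) : Prop extends St c x l a b i0 G d where
  sum : sgn true d = 2
  nof : Fl3 G false (tw x l i0 d) = ∅
  one : (Fl3 G true d).card ≤ 1
  sp : ∀ j, j ≠ i0 → a j ≠ x → ¬ Fp G (tw x l i0 d) (a j)

/-- A state in which a vertex of colour `false` may be flippable. -/
structure DSt (c : V → Bool) (x : V) (l a b : Fin 3 → V) (i0 : Fin 3) (G : SimpleGraph V)
    [DecidableRel G.Adj] (d : V → Bool) : Prop extends St c x l a b i0 G d where
  sum : sgn true d = 0
  not : Fl3 G true d = ∅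
  one : (Fl3 G false (tw x l i0 d)).card ≤ 1
  sp : ∀ j, j ≠ i0 → b j ≠ x → ¬ Fp G d (b j)

variable {i0}

include st

theorem mono_true {d : V → Bool} {v : V} (hv : v ∈ rest x l) (hd : d v = true)
    (h : Fp G (tw x l i0 d) v) : Fp G d v := by
  have hv' := mem_rest.1 hv
  apply Fp_of_bad_subset _ h
  intro w hw
  rw [mem_bad] at hw ⊢
  refine ⟨hw.1, ?_⟩
  have h1 := hw.2
  rw [tw_rest i0 hv] at h1
  rw [hd] at h1 ⊢
  unfold tw at h1
  by_cases hwx : w = x
  · exfalso
    rw [hwx] at hw
    obtain ⟨i, hi⟩ := (st.nx v).1 hw.1.symm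
    exact hv'.2 i hi
  · rw [if_neg hwx] at h1
    by_cases hwl : ∃ j, j ≠ i0 ∧ w = l j
    · rw [if_pos hwl] at h1
      exact absurd h1 (by simp)
    · rw [if_neg hwl] at h1
      exact h1

theorem mono_false {d : V → Bool} (hs : St c x l a b i0 G d) {v : V} (hv : v ∈ rest x l)
    (hd : d v = false) (h : Fp G d v) : Fp G (tw x l i0 d) v := by
  have hv' := mem_rest.1 hv
  apply Fp_of_bad_subset _ h
  intro w hw
  rw [mem_bad] at hw ⊢
  refine ⟨hw.1, ?_⟩
  have h1 := hw.2
  rw [tw_rest i0 hv]
  rw [hd] at h1 ⊢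
  unfold tw
  by_cases hwx : w = x
  · exfalso
    rw [hwx] at hw
    obtain ⟨i, hi⟩ := (st.nx v).1 hw.1.symm
    exact hv'.2 i hi
  · rw [if_neg hwx]
    split_ifs
    · rfl
    · exact h1

/-- A flippable vertex of the twin of colour `true` is in the rest. -/
theorem rest_of_Fp_tw {d : V → Bool} (hs : St c x l a b i0 G d) (hi0 : a i0 ≠ x)
    {v : V} (hv : Fp G (tw x l i0 d) v) (hc : tw x l i0 d v = true) : v ∈ rest x l := by
  rw [mem_rest]
  have hb0 : b i0 ≠ x := fun h => hi0 ((st.a_eq_iff i0).2 h)
  constructor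
  · rintro rfl
    have h1 : bad G (tw v l i0 d) v ⊆ {l i0} := by
      intro w hw
      rw [mem_bad, tw_x] at hw
      obtain ⟨i, rfl⟩ := (st.nx w).1 hw.1
      rw [Finset.mem_singleton]
      by_contra hne
      have : i ≠ i0 := fun h => hne (by rw [h])
      rw [tw_l st i0 this] at hw
      exact absurd hw.2 (by simp)
    exact not_Fp_of_card_le_one st.deg_x (Finset.card_le_card h1) hv
  · intro i hi
    by_cases hii : i = i0
    · subst hii
      have h1 : bad G (tw x l i d) v ⊆ {x} := by
        intro w hw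
        rw [mem_bad, hc, hi] at hw
        rw [Finset.mem_singleton]
        rcases (st.nl i w).1 hw.1 with h | h | h
        · exact h
        · exfalso
          rw [h, tw_rest i (st.a_rest i hi0), hs.da0] at hw
          exact absurd hw.2 (by simp)
        · exfalso
          rw [h, tw_rest i (st.b_rest i hb0), hs.db0] at hw
          exact absurd hw.2 (by simp)
      rw [hi] at hv h1
      exact not_Fp_of_card_le_one (st.deg_l i hi0) (Finset.card_le_card h1) hv
    · rw [hi, tw_l st i0 hii] at hc
      exact absurd hc (by simp)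

/-- A flippable vertex of `d` of colour `false` is in the rest. -/
theorem rest_of_Fp {d : V → Bool} (hs : St c x l a b i0 G d)
    {v : V} (hv : Fp G d v) (hc : d v = false) : v ∈ rest x l := by
  rw [mem_rest]
  constructor
  · rintro rfl
    have h1 : bad G d v = ∅ := by
      rw [Finset.eq_empty_iff_forall_notMem]
      intro w hw
      rw [mem_bad, hc] at hw
      obtain ⟨i, rfl⟩ := (st.nx w).1 hw.1
      rw [hs.dl i] at hw
      exact absurd hw.2 (by simp)
    exact not_Fp_of_empty h1 hv
  · intro i hi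
    rw [hi, hs.dl i] at hc
    exact absurd hc (by simp)

omit st in
theorem exists_Fp_of_sum (hB : NoBal3 G) (hG : Deg13 G) {d : V → Bool} (h : sgn true d = 0) :
    ∃ v, Fp G d v := by
  by_contra hcon
  push Not at hcon
  exact hB d (fun v => not_fp G hG (hcon v)) h

omit st in
theorem mem_rest_ne {y v : V} (hy : y ∈ rest x l) (hv : v ∉ rest x l) : v ≠ y := by
  rintro rfl
  exact hv hy

omit st in
theorem flip_star {d : V → Bool} {y : V} (hy : y ∈ rest x l) :
    flip d y x = d x ∧ ∀ i, flip d y (l i) = d (l i) := by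
  have h := mem_rest.1 hy
  exact ⟨flip_ne d (fun e => h.1 e.symm), fun i => flip_ne d (fun e => h.2 i e.symm)⟩

/-- The step from a `C` state to a `D` state. -/
theorem stepC (hG : Deg13 G) (hB : NoBal3 G) (hi0 : a i0 ≠ x) {d : V → Bool}
    (h : CSt c x l a b i0 G d) :
    ∃ y, y ∈ rest x l ∧ y ≠ a i0 ∧ y ≠ b i0 ∧ Fp G d y ∧ DSt c x l a b i0 G (flip d y) := by
  have hb0 : b i0 ≠ x := fun h => hi0 ((st.a_eq_iff i0).2 h)
  have hst : sgn true (tw x l i0 d) = 0 := by
    rw [sgn_tw st i0 h.dx h.dl, h.sum]; norm_num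
  obtain ⟨y, hy⟩ := exists_Fp_of_sum hB hG hst
  have hyt : tw x l i0 d y = true := by
    by_contra hcon
    have h1 : y ∈ Fl3 G false (tw x l i0 d) :=
      (mem_Fl3 G).2 ⟨hy, Bool.eq_false_iff.2 hcon⟩
    rw [h.nof] at h1
    exact absurd h1 (Finset.notMem_empty _)
  have hyR := rest_of_Fp_tw st h.toSt hi0 hy hyt
  have hyd : d y = true := by rw [← tw_rest (d := d) i0 hyR, hyt]
  have hyF := mono_true st hyR hyd hy
  have hya : y ≠ a i0 := by rintro rfl; rw [h.da0] at hyd; exact absurd hyd (by simp)
  have hyb : y ≠ b i0 := by rintro rfl; rw [h.db0] at hyd; exact absurd hyd (by simp)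
  obtain ⟨hfx, hfl⟩ := flip_star (d := d) hyR
  -- sums and potentials
  have hsum : sgn true (flip d y) = 0 := by
    rw [sgn_flip, h.sum, if_pos hyd]; norm_num
  have hnot : Fl3 G true (flip d y) = ∅ := by
    have h1 := pot_step3 G hG false d y hyF
    have h2 : sgn false d = - sgn true d := sgn_not true d
    have h3 : sgn false (flip d y) = - sgn true (flip d y) := sgn_not true _
    have h4 : (!false) = true := rfl
    rw [h4, h2, h3, h.sum, hsum] at h1
    have h5 := h.one
    rw [← Finset.card_eq_zero]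
    omega
  have hone : (Fl3 G false (tw x l i0 (flip d y))).card ≤ 1 := by
    have h1 := pot_step3 G hG true (tw x l i0 d) y hy
    have h4 : (!true) = false := rfl
    rw [h4, flip_tw i0 hyR, hst, h.nof, Finset.card_empty,
      sgn_tw st i0 (by rw [hfx, h.dx]) (fun i => by rw [hfl, h.dl]), hsum] at h1
    push_cast at h1
    omega
  -- specials
  have hsp : ∀ j, j ≠ i0 → b j ≠ x → ¬ Fp G (flip d y) (b j) := by
    intro j hj hbj hF
    have haj : a j ≠ x := fun e => hbj ((st.a_eq_iff j).1 e)
    have hbR := st.b_rest j hbj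
    have hbd := h.db j hj hbj
    -- in the twin the vertex `b j` has the own neighbour `l j`, hence no other one
    have h1 : ¬ Fp G (tw x l i0 d) (b j) := by
      intro h2
      have h3 : b j ∈ Fl3 G false (tw x l i0 d) :=
        (mem_Fl3 G).2 ⟨h2, by rw [tw_rest i0 hbR, hbd]⟩
      rw [h.nof] at h3
      exact absurd h3 (Finset.notMem_empty _)
    have h2 : bad G d (b j) = ∅ := by
      by_contra hne
      obtain ⟨w, hw⟩ := Finset.nonempty_of_ne_empty hne
      rw [mem_bad, hbd] at hw
      apply h1
      have hwl : w ≠ l j := by rintro rfl; rw [h.dl] at hw; exact absurd hw.2 (by simp)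
      have h4 : ({w, l j} : Finset V) ⊆ bad G (tw x l i0 d) (b j) := by
        intro u hu
        rw [Finset.mem_insert, Finset.mem_singleton] at hu
        rw [mem_bad, tw_rest i0 hbR, hbd]
        rcases hu with rfl | rfl
        · refine ⟨hw.1, ?_⟩
          unfold tw
          split_ifs with h5 h6
          · exfalso
            rw [h5] at hw
            obtain ⟨i, hi⟩ := (st.nx _).1 hw.1.symm
            exact (mem_rest.1 hbR).2 i hi
          · rfl
          · exact hw.2
        · exact ⟨((st.nl j (b j)).2 (Or.inr (Or.inr rfl))).symm, tw_l st i0 hj⟩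
      have h5 := Finset.card_le_card h4
      rw [Finset.card_pair hwl] at h5
      unfold Fp
      have h6 := st.deg_b j hbj
      omega
    -- after one flip there is at most one own neighbour
    have hby : b j ≠ y := by rintro rfl; rw [hbd] at hyd; exact absurd hyd (by simp)
    have h3 : bad G (flip d y) (b j) ⊆ {y} := by
      intro w hw
      rw [Finset.mem_singleton]
      by_contra hwy
      rw [mem_bad, flip_ne d hby, flip_ne d hwy] at hw
      have : w ∈ bad G d (b j) := (mem_bad G d _ _).2 hw
      rw [h2] at this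
      exact absurd this (Finset.notMem_empty _)
    exact not_Fp_of_card_le_one (st.deg_b j hbj) (Finset.card_le_card h3) hF
  have hday : ∀ j, j ≠ i0 → a j ≠ x → a j ≠ y := by
    rintro j hj haj rfl
    exact h.sp j hj haj hy
  have hdby : ∀ j, j ≠ i0 → b j ≠ x → b j ≠ y := by
    rintro j hj hbj rfl
    rw [h.db j hj hbj] at hyd
    exact absurd hyd (by simp)
  -- `b i0` stays clean
  have hbb : bad G (flip d y) (b i0) = ∅ := by
    by_contra hne
    have hadj : G.Adj (b i0) y := by
      by_contra hna
      apply hne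
      rw [bad_flip_nonadj G d hyb.symm hna, h.bb]
    -- then `flip d y` is valid
    obtain ⟨w, hw⟩ := exists_Fp_of_sum hB hG hsum
    have hwf : flip d y w = false := by
      by_contra hcon
      have h1 : w ∈ Fl3 G true (flip d y) := (mem_Fl3 G).2 ⟨hw, by simpa using hcon⟩
      rw [hnot] at h1
      exact absurd h1 (Finset.notMem_empty _)
    have hwy : w ≠ y := by
      rintro rfl
      exact not_Fp_flip hyF hw
    rw [flip_ne d hwy] at hwf
    rcases Fp_flip_imp hw hwy with h1 | h1
    · have hwR := rest_of_Fp st h.toSt h1 hwf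
      have h2 := mono_false st h.toSt hwR hwf h1
      have h3 : w ∈ Fl3 G false (tw x l i0 d) :=
        (mem_Fl3 G).2 ⟨h2, by rw [tw_rest i0 hwR, hwf]⟩
      rw [h.nof] at h3
      exact absurd h3 (Finset.notMem_empty _)
    · have h2 : w = b i0 := Fp_opp_unique hG hyF h1.1.symm hadj.symm h1.2
        (by rw [h.db0, hyd]; simp)
      rw [h2] at hw
      have h3 : bad G (flip d y) (b i0) ⊆ {y} := by
        intro u hu
        rw [Finset.mem_singleton]
        by_contra huy
        rw [mem_bad, flip_ne d hyb.symm, flip_ne d huy] at hu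
        have : u ∈ bad G d (b i0) := (mem_bad G d _ _).2 hu
        rw [h.bb] at this
        exact absurd this (Finset.notMem_empty _)
      exact not_Fp_of_card_le_one (st.deg_b i0 hb0) (Finset.card_le_card h3) hw
  refine ⟨y, hyR, hya, hyb, hyF, ?_⟩
  exact
    { dx := by rw [hfx, h.dx]
      dl := fun i => by rw [hfl, h.dl]
      da0 := by rw [flip_ne d hya.symm, h.da0]
      db0 := by rw [flip_ne d hyb.symm, h.db0]
      da := fun j hj haj => by rw [flip_ne d (hday j hj haj), h.da j hj haj]
      db := fun j hj hbj => by rw [flip_ne d (hdby j hj hbj), h.db j hj hbj]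
      bb := hbb
      sum := hsum
      not := hnot
      one := hone
      sp := hsp }

/-- The step from a `D` state to a `C` state, or the end of the reaction. -/
theorem stepD (hG : Deg13 G) (hB : NoBal3 G) {d : V → Bool}
    (h : DSt c x l a b i0 G d) :
    Fp G d (a i0) ∨
    ∃ y, y ∈ rest x l ∧ y ≠ a i0 ∧ y ≠ b i0 ∧ Fp G d y ∧ CSt c x l a b i0 G (flip d y) := by
  by_cases hfa : Fp G d (a i0)
  · exact Or.inl hfa
  right
  obtain ⟨y, hyF⟩ := exists_Fp_of_sum hB hG h.sum
  have hyd : d y = false := by
    by_contra hcon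
    have h1 : y ∈ Fl3 G true d := (mem_Fl3 G).2 ⟨hyF, by simpa using hcon⟩
    rw [h.not] at h1
    exact absurd h1 (Finset.notMem_empty _)
  have hyR := rest_of_Fp st h.toSt hyF hyd
  have hyT := mono_false st h.toSt hyR hyd hyF
  have hya : y ≠ a i0 := by rintro rfl; exact hfa hyF
  have hyb : y ≠ b i0 := by rintro rfl; exact not_Fp_of_empty h.bb hyF
  obtain ⟨hfx, hfl⟩ := flip_star (d := d) hyR
  have hst : sgn true (tw x l i0 d) = -2 := by
    rw [sgn_tw st i0 h.dx h.dl, h.sum]; norm_num
  have hsum : sgn true (flip d y) = 2 := by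
    rw [sgn_flip, h.sum, if_neg (by rw [hyd]; simp)]; norm_num
  have hnof : Fl3 G false (tw x l i0 (flip d y)) = ∅ := by
    have h1 := pot_step3 G hG true (tw x l i0 d) y hyT
    have h4 : (!true) = false := rfl
    rw [h4, flip_tw i0 hyR, hst,
      sgn_tw st i0 (by rw [hfx, h.dx]) (fun i => by rw [hfl, h.dl]), hsum] at h1
    have h5 := h.one
    rw [← Finset.card_eq_zero]
    omega
  have hone : (Fl3 G true (flip d y)).card ≤ 1 := by
    have h1 := pot_step3 G hG false d y hyF
    have h2 : sgn false d = - sgn true d := sgn_not true d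
    have h3 : sgn false (flip d y) = - sgn true (flip d y) := sgn_not true _
    have h4 : (!false) = true := rfl
    rw [h4, h2, h3, h.sum, hsum, h.not, Finset.card_empty] at h1
    push_cast at h1
    omega
  have hday : ∀ j, j ≠ i0 → a j ≠ x → a j ≠ y := by
    rintro j hj haj rfl
    rw [h.da j hj haj] at hyd
    exact absurd hyd (by simp)
  have hdby : ∀ j, j ≠ i0 → b j ≠ x → b j ≠ y := by
    rintro j hj hbj rfl
    exact h.sp j hj hbj hyF
  have hsp : ∀ j, j ≠ i0 → a j ≠ x → ¬ Fp G (tw x l i0 (flip d y)) (a j) := by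
    intro j hj haj hF
    have haR := st.a_rest j haj
    have had := h.da j hj haj
    have h1 : ¬ Fp G d (a j) := by
      intro h2
      have h3 : a j ∈ Fl3 G true d := (mem_Fl3 G).2 ⟨h2, had⟩
      rw [h.not] at h3
      exact absurd h3 (Finset.notMem_empty _)
    -- `l j` is the only own neighbour of `a j` in `d`
    have h2 : ∀ w, G.Adj (a j) w → d w = true → w = l j := by
      intro w hw hdw
      by_contra hwl
      apply h1
      have h4 : ({w, l j} : Finset V) ⊆ bad G d (a j) := by
        intro u hu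
        rw [Finset.mem_insert, Finset.mem_singleton] at hu
        rw [mem_bad, had]
        rcases hu with rfl | rfl
        · exact ⟨hw, hdw⟩
        · exact ⟨((st.nl j (a j)).2 (Or.inr (Or.inl rfl))).symm, h.dl j⟩
      have h5 := Finset.card_le_card h4
      rw [Finset.card_pair hwl] at h5
      unfold Fp
      have h6 := st.deg_a j haj
      omega
    have h3 : bad G (tw x l i0 (flip d y)) (a j) ⊆ {y} := by
      intro w hw
      rw [Finset.mem_singleton]
      by_contra hwy
      rw [mem_bad, tw_rest i0 haR, flip_ne d (hday j hj haj), had] at hw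
      have h4 := hw.2
      unfold tw at h4
      by_cases hwx : w = x
      · rw [hwx] at hw
        obtain ⟨i, hi⟩ := (st.nx _).1 hw.1.symm
        exact (mem_rest.1 haR).2 i hi
      · rw [if_neg hwx] at h4
        by_cases hwl : ∃ k, k ≠ i0 ∧ w = l k
        · rw [if_pos hwl] at h4
          exact absurd h4 (by simp)
        · rw [if_neg hwl, flip_ne d hwy] at h4
          exact hwl ⟨j, hj, h2 w hw.1 h4⟩
    exact not_Fp_of_card_le_one (st.deg_a j haj) (Finset.card_le_card h3) hF
  have hbb : bad G (flip d y) (b i0) = ∅ := by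
    rw [Finset.eq_empty_iff_forall_notMem]
    intro w hw
    rw [mem_bad, flip_ne d hyb.symm, h.db0] at hw
    by_cases hwy : w = y
    · rw [hwy, flip_same, hyd] at hw
      exact absurd hw.2 (by simp)
    · rw [flip_ne d hwy] at hw
      have : w ∈ bad G d (b i0) := (mem_bad G d _ _).2 ⟨hw.1, by rw [hw.2, h.db0]⟩
      rw [h.bb] at this
      exact absurd this (Finset.notMem_empty _)
  refine ⟨y, hyR, hya, hyb, hyF, ?_⟩
  exact
    { dx := by rw [hfx, h.dx]
      dl := fun i => by rw [hfl, h.dl]
      da0 := by rw [flip_ne d hya.symm, h.da0]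
      db0 := by rw [flip_ne d hyb.symm, h.db0]
      da := fun j hj haj => by rw [flip_ne d (hday j hj haj), h.da j hj haj]
      db := fun j hj hbj => by rw [flip_ne d (hdby j hj hbj), h.db j hj hbj]
      bb := hbb
      sum := hsum
      nof := hnof
      one := hone
      sp := hsp }

/-! ### The reaction -/

omit st in
/-- `RC … d₀ d H T`: the colouring `d` is reached from `d₀` by `T` flips of flippable vertices of
the rest other than `a i0`, `b i0`; `H` is the set of the vertices flipped at least once. -/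
inductive RC (x : V) (l a b : Fin 3 → V) (i0 : Fin 3) (G : SimpleGraph V) [DecidableRel G.Adj]
    (d₀ : V → Bool) : (V → Bool) → Finset V → ℕ → Prop
  | start : RC x l a b i0 G d₀ d₀ ∅ 0
  | step (d : V → Bool) (H : Finset V) (T : ℕ) (y : V) :
      RC x l a b i0 G d₀ d H T → y ∈ rest x l → y ≠ a i0 → y ≠ b i0 → Fp G d y →
      RC x l a b i0 G d₀ (flip d y) (insert y H) (T + 1)

omit st in
theorem RC.card_le {d₀ d : V → Bool} {H : Finset V} {T : ℕ} (h : RC x l a b i0 G d₀ d H T) :
    H.card ≤ T := by
  induction h with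
  | start => simp
  | step d H T y _ _ _ _ _ ih => exact (Finset.card_insert_le _ _).trans (by omega)

omit st in
theorem RC.same {d₀ d : V → Bool} {H : Finset V} {T : ℕ} (h : RC x l a b i0 G d₀ d H T) {v : V}
    (hv : v ∉ H) : d v = d₀ v := by
  induction h with
  | start => rfl
  | step d H T y _ _ _ _ _ ih =>
    rw [Finset.mem_insert, not_or] at hv
    rw [flip_ne d hv.1]
    exact ih hv.2

omit st in
theorem RC.mem {d₀ d : V → Bool} {H : Finset V} {T : ℕ} (h : RC x l a b i0 G d₀ d H T) {v : V}
    (hv : v ∈ H) : v ∈ rest x l ∧ v ≠ a i0 ∧ v ≠ b i0 := by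
  induction h with
  | start => exact absurd hv (Finset.notMem_empty _)
  | step d H T y _ h1 h2 h3 _ ih =>
    rw [Finset.mem_insert] at hv
    rcases hv with rfl | hv
    · exact ⟨h1, h2, h3⟩
    · exact ih hv

omit st in
theorem RC.energy (hG : Deg13 G) {d₀ d : V → Bool} {H : Finset V} {T : ℕ}
    (h : RC x l a b i0 G d₀ d H T) : En G d + 2 * T ≤ En G d₀ := by
  induction h with
  | start => simp
  | step d H T y _ _ _ _ h4 ih =>
    have h5 := En_flip3 G d y
    have h6 := bad_le_degree G d y
    unfold Fp at h4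
    rcases hG y with h7 | h7 <;> omega

omit st in
/-- The vertices of a chain are flipped one after the other, the last one first. -/
theorem RC.forced (hG : Deg13 G) {d₀ d : V → Bool} {H : Finset V} {T : ℕ}
    (h : RC x l a b i0 G d₀ d H T) {p : ℕ → V} {n : ℕ} (hp0 : p 0 = a i0)
    (hadj : ∀ i, i < n → G.Adj (p i) (p (i + 1)))
    (hne : ∀ i, 1 ≤ i → i < n → p (i - 1) ≠ p (i + 1))
    (hcol : ∀ i, i < n → d₀ (p (i + 1)) ≠ d₀ (p i)) :
    ∀ i, 1 ≤ i → i < n → p i ∈ H → p (i + 1) ∈ H := by
  induction h with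
  | start => intro i _ _ h; exact absurd h (Finset.notMem_empty _)
  | step d H T y hR h1 h2 h3 h4 ih =>
    intro i hi1 hin hiH
    rw [Finset.mem_insert] at hiH ⊢
    by_cases hiH' : p i ∈ H
    · exact Or.inr (ih i hi1 hin hiH')
    · have hy : p i = y := by
        rcases hiH with h | h
        · exact h
        · exact absurd h hiH'
      by_contra hcon
      rw [not_or] at hcon
      -- the previous vertex is not flipped either
      have hprev : p (i - 1) ∉ H := by
        intro hm
        rcases Nat.eq_or_lt_of_le hi1 with h5 | h5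
        · rw [← h5] at hm
          exact (hR.mem hm).2.1 hp0
        · have h6 := ih (i - 1) (by omega) (by omega) hm
          rw [Nat.sub_add_cancel hi1] at h6
          exact hiH' h6
      have e1 := hR.same hprev
      have e2 := hR.same hiH'
      have e3 := hR.same hcon.2
      have a1 := hadj (i - 1) (by omega)
      rw [Nat.sub_add_cancel hi1] at a1
      have c1 := hcol (i - 1) (by omega)
      rw [Nat.sub_add_cancel hi1] at c1
      refine not_Fp_of_two_opp hG (hne i hi1 hin) (y := p i) a1.symm (hadj i hin) ?_ ?_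
        (by rw [hy]; exact h4)
      · rw [e1, e2]; exact c1.symm
      · rw [e3, e2]; exact hcol i hin

/-- The reaction goes on until the flipped special vertex is flippable. -/
theorem react (hG : Deg13 G) (hB : NoBal3 G) (hi0 : a i0 ≠ x) {d₀ : V → Bool} :
    ∀ (n : ℕ) (d : V → Bool) (H : Finset V) (T : ℕ), En G d = n →
      RC x l a b i0 G d₀ d H T → (CSt c x l a b i0 G d ∨ DSt c x l a b i0 G d) →
      ∃ (d' : V → Bool) (H' : Finset V) (T' : ℕ), RC x l a b i0 G d₀ d' H' T' ∧
        DSt c x l a b i0 G d' ∧ Fp G d' (a i0) := by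
  intro n
  induction n using Nat.strong_induction_on with
  | _ n ih =>
    intro d H T hn hR hst
    rcases hst with h | h
    · obtain ⟨y, h1, h2, h3, h4, h5⟩ := stepC st hG hB hi0 h
      have h6 := En_flip_lt3 G d y h4
      exact ih _ (by omega) (flip d y) (insert y H) (T + 1) rfl
        (RC.step d H T y hR h1 h2 h3 h4) (Or.inr h5)
    · rcases stepD st hG hB h with h0 | ⟨y, h1, h2, h3, h4, h5⟩
      · exact ⟨d, H, T, hR, h, h0⟩
      · have h6 := En_flip_lt3 G d y h4
        exact ih _ (by omega) (flip d y) (insert y H) (T + 1) rfl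
          (RC.step d H T y hR h1 h2 h3 h4) (Or.inl h5)

/-- If the special vertex `a i0` is flippable in a `D` state then the energy is large. -/
theorem end_energy (hG : Deg13 G) (hB : NoBal3 G) (hi0 : a i0 ≠ x) {d : V → Bool}
    (h : DSt c x l a b i0 G d) (hf : Fp G d (a i0)) {c' : V → Bool} (hc : Crit3 G c') :
    En G c' ≤ En G d + 2 := by
  have hb0 : b i0 ≠ x := fun h => hi0 ((st.a_eq_iff i0).2 h)
  have haR := st.a_rest i0 hi0
  have hbR := st.b_rest i0 hb0
  have hab : a i0 ≠ b i0 := st.a_ne_b' i0 hi0 i0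
  obtain ⟨hfx, hfl⟩ := flip_star (d := d) haR
  have hdeg := st.deg_a i0 hi0
  have hadjl : G.Adj (a i0) (l i0) := ((st.nl i0 (a i0)).2 (Or.inr (Or.inl rfl))).symm
  -- all other neighbours of `a i0` have the colour `false`
  have hnb : ∀ w, G.Adj (a i0) w → w ≠ l i0 → d w = false := by
    intro w hw hwl
    by_contra hcon
    have hcw : d w ≠ d (a i0) := by
      rw [h.da0]; exact hcon
    exact hwl (Fp_opp_unique hG hf hw hadjl hcw (by rw [h.da0, h.dl]; simp))
  have hbad2 : (bad G d (a i0)).card = 2 := by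
    have h1 : bad G d (a i0) = (G.neighborFinset (a i0)).erase (l i0) := by
      ext w
      rw [mem_bad, Finset.mem_erase, SimpleGraph.mem_neighborFinset, h.da0]
      constructor
      · rintro ⟨h2, h3⟩
        refine ⟨?_, h2⟩
        rintro rfl
        rw [h.dl] at h3
        exact absurd h3 (by simp)
      · rintro ⟨h2, h3⟩
        exact ⟨h3, hnb w h3 h2⟩
    have h2 : (G.neighborFinset (a i0)).card = G.degree (a i0) := rfl
    rw [h1, Finset.card_erase_of_mem (by rwa [SimpleGraph.mem_neighborFinset]), h2, hdeg]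
  -- the colouring after flipping `a i0`
  set e := flip d (a i0) with he
  have hea : e (a i0) = true := by rw [he, flip_same, h.da0]; rfl
  have heb : e (b i0) = false := by rw [he, flip_ne d hab.symm, h.db0]
  have hex : e x = false := by rw [hfx, h.dx]
  have hel : ∀ i, e (l i) = true := fun i => by rw [hfl, h.dl]
  have heA : ∀ j, a j ≠ x → e (a j) = true := by
    intro j hj
    by_cases hji : j = i0
    · rw [hji]; exact hea
    · rw [he, flip_ne d, h.da j hji hj]
      intro h1
      exact hji (st.a_inj j i0 h1 hj)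
  have heB : ∀ j, b j ≠ x → e (b j) = false := by
    intro j hj
    by_cases hji : j = i0
    · rw [hji]; exact heb
    · rw [he, flip_ne d, h.db j hji hj]
      exact (st.a_ne_b' i0 hi0 j).symm
  have hesum : sgn true e = 2 := by
    rw [he, sgn_flip, h.sum, if_neg (by rw [h.da0]; simp)]; norm_num
  -- `e` is valid
  have hev : Valid3 G e := by
    intro w
    apply not_fp G hG
    intro hw
    by_cases hwa : w = a i0
    · rw [hwa] at hw
      exact not_Fp_flip hf hw
    rcases Fp_flip_imp hw hwa with h1 | h1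
    · -- `w` was flippable before, so it has the colour `false`, and is the only one
      have hwf : d w = false := by
        by_contra hcon
        have h2 : w ∈ Fl3 G true d := (mem_Fl3 G).2 ⟨h1, by simpa using hcon⟩
        rw [h.not] at h2
        exact absurd h2 (Finset.notMem_empty _)
      have hwR := rest_of_Fp st h.toSt h1 hwf
      have h2 : w ∈ Fl3 G false (tw x l i0 d) :=
        (mem_Fl3 G).2 ⟨mono_false st h.toSt hwR hwf h1, by rw [tw_rest i0 hwR, hwf]⟩
      have h3 : a i0 ∈ Fl3 G false (tw x l i0 d) :=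
        (mem_Fl3 G).2 ⟨mono_false st h.toSt haR h.da0 hf, by rw [tw_rest i0 haR, h.da0]⟩
      exact hwa (Finset.card_le_one.1 h.one w h2 (a i0) h3)
    · have hwl : w = l i0 := by
        by_contra hwl
        have := hnb w h1.1.symm hwl
        rw [h.da0] at h1
        exact h1.2 this
      rw [hwl] at hw
      have h2 : bad G e (l i0) ⊆ {a i0} := by
        intro u hu
        rw [mem_bad, hel] at hu
        rw [Finset.mem_singleton]
        rcases (st.nl i0 u).1 hu.1 with h3 | h3 | h3
        · rw [h3, hex] at hu; exact absurd hu.2 (by simp)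
        · exact h3
        · rw [h3, heb] at hu; exact absurd hu.2 (by simp)
      exact not_Fp_of_card_le_one (st.deg_l i0 hi0) (Finset.card_le_card h2) hw
  have hLe : Lab3 G true e := Lab3.of_valid G hev (by rw [hesum])
  -- the twin side
  have hfT := mono_false st h.toSt haR h.da0 hf
  have hetw : flip (tw x l i0 d) (a i0) = tw x l i0 e := flip_tw i0 haR
  have hl0 : Fp G (tw x l i0 e) (l i0) := by
    have h1 : ({x, a i0} : Finset V) ⊆ bad G (tw x l i0 e) (l i0) := by
      intro u hu
      rw [Finset.mem_insert, Finset.mem_singleton] at hu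
      rw [mem_bad, tw_l0 st i0, hel]
      rcases hu with rfl | rfl
      · exact ⟨(st.nl i0 _).2 (Or.inl rfl), tw_x i0 e⟩
      · exact ⟨(st.nl i0 _).2 (Or.inr (Or.inl rfl)), by rw [tw_rest i0 haR, hea]⟩
    have h2 := Finset.card_le_card h1
    rw [Finset.card_pair hi0.symm] at h2
    unfold Fp
    have h3 := st.deg_l i0 hi0
    omega
  set f := flip (tw x l i0 e) (l i0) with hf'
  have hRf : Reach3 G (tw x l i0 d) f :=
    Reach3.step _ (a i0) _ hfT (by rw [hetw]; exact Reach3.one G hl0)
  have hLf : Lab3 G false f := by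
    rcases lab_or3 G hG hB false f with h1 | h1
    · exact h1
    · exfalso
      obtain ⟨g, h2, h3, h4⟩ := h1
      have h5 := pot_reach3 G hG true (hRf.trans G h2)
      have h6 : (!true) = false := rfl
      have h7 : (!false) = true := rfl
      rw [h7] at h4
      rw [h6, sgn_tw st i0 h.dx h.dl, h.sum] at h5
      have h8 := h.one
      omega
  have hfx' : f x = true := by
    rw [hf', flip_ne _ (st.l_ne_x i0).symm, tw_x]
  have hfl' : ∀ i, f (l i) = false := by
    intro i
    by_cases hi : i = i0
    · rw [hi, hf', flip_same, tw_l0 st i0, hel]; rfl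
    · rw [hf', flip_ne _ (fun h => hi (st.l_inj h)), tw_l st i0 hi]
  have hfR : ∀ v, v ∈ rest x l → f v = e v := by
    intro v hv
    rw [hf', flip_ne _ ((mem_rest.1 hv).2 i0), tw_rest i0 hv]
  -- the saddle over `e` and `f`
  obtain ⟨j1, j2, h1, h2, h12, hall⟩ := three_cases i0
  have hl12 : l j1 ≠ l j2 := fun h => h12 (st.l_inj h)
  have hl01 : l i0 ≠ l j1 := fun h => h1 (st.l_inj h).symm
  have hl02 : l i0 ≠ l j2 := fun h => h2 (st.l_inj h).symm
  have hx0 := st.l_ne_x i0
  have hx1 := st.l_ne_x j1
  have hx2 := st.l_ne_x j2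
  -- own neighbours of a leaf in a colouring which agrees with `e` on the rest
  have hleaf : ∀ (g : V → Bool), (∀ v, v ∈ rest x l → g v = e v) → ∀ i, g x = g (l i) →
      Fp G g (l i) := by
    intro g hg i hgx
    by_cases hai : a i = x
    · have h3 : x ∈ bad G g (l i) := (mem_bad G g _ _).2 ⟨(st.nl i x).2 (Or.inl rfl), hgx⟩
      have h4 : 1 ≤ (bad G g (l i)).card := Finset.card_pos.2 ⟨x, h3⟩
      unfold Fp
      have h5 := st.deg_pl i hai
      omega
    · have hbi : b i ≠ x := fun h => hai ((st.a_eq_iff i).2 h)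
      have hga : g (a i) = true := by rw [hg _ (st.a_rest i hai), heA i hai]
      have hgb : g (b i) = false := by rw [hg _ (st.b_rest i hbi), heB i hbi]
      obtain ⟨u, hu, hux, hug⟩ : ∃ u, G.Adj (l i) u ∧ u ≠ x ∧ g u = g (l i) := by
        cases hgl : g (l i)
        · exact ⟨b i, (st.nl i _).2 (Or.inr (Or.inr rfl)), hbi, hgb⟩
        · exact ⟨a i, (st.nl i _).2 (Or.inr (Or.inl rfl)), hai, hga⟩
      have h3 : ({x, u} : Finset V) ⊆ bad G g (l i) := by
        intro w hw
        rw [Finset.mem_insert, Finset.mem_singleton] at hw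
        rw [mem_bad]
        rcases hw with rfl | rfl
        · exact ⟨(st.nl i _).2 (Or.inl rfl), hgx⟩
        · exact ⟨hu, hug⟩
      have h4 := Finset.card_le_card h3
      rw [Finset.card_pair (Ne.symm hux)] at h4
      unfold Fp
      have h5 := st.deg_l i hai
      omega
  set g1 := flip e (l j2) with hg1
  set g2 := flip g1 x with hg2
  have hR1 : ∀ v, v ∈ rest x l → g1 v = e v := fun v hv => by
    rw [hg1, flip_ne _ ((mem_rest.1 hv).2 j2)]
  have hR2 : ∀ v, v ∈ rest x l → g2 v = e v := fun v hv => by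
    rw [hg2, flip_ne _ (mem_rest.1 hv).1, hR1 v hv]
  have hfe1 : flip g1 (l j2) = e := Pool.Agent.IVT.flip_flip e (l j2)
  have hfe2 : flip g2 x = g1 := Pool.Agent.IVT.flip_flip g1 x
  -- `g1` has the label of `e`
  have hF1 : Fp G g1 (l j2) := by
    apply hleaf g1 hR1
    rw [hg1, flip_ne _ hx2.symm, hex, flip_same, hel]; rfl
  have hL1 : Lab3 G true g1 := by
    apply hLe.of_reach G
    have h3 := Reach3.one G hF1
    rwa [hfe1] at h3
  -- `x` is flippable in `g2`
  have hg2x : g2 x = true := by rw [hg2, flip_same, hg1, flip_ne _ hx2.symm, hex]; rfl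
  have hg2l0 : g2 (l i0) = true := by rw [hg2, flip_ne _ hx0, hg1, flip_ne _ hl02, hel]
  have hg2l1 : g2 (l j1) = true := by rw [hg2, flip_ne _ hx1, hg1, flip_ne _ hl12, hel]
  have hg2l2 : g2 (l j2) = false := by rw [hg2, flip_ne _ hx2, hg1, flip_same, hel]; rfl
  have hF2 : Fp G g2 x := by
    have h3 : ({l i0, l j1} : Finset V) ⊆ bad G g2 x := by
      intro w hw
      rw [Finset.mem_insert, Finset.mem_singleton] at hw
      rw [mem_bad, hg2x]
      rcases hw with rfl | rfl
      · exact ⟨(st.nx _).2 ⟨i0, rfl⟩, hg2l0⟩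
      · exact ⟨(st.nx _).2 ⟨j1, rfl⟩, hg2l1⟩
    have h4 := Finset.card_le_card h3
    rw [Finset.card_pair hl01] at h4
    unfold Fp
    have h5 := st.deg_x
    omega
  have hL2 : Lab3 G true g2 := by
    apply hL1.of_reach G
    have h3 := Reach3.one G hF2
    rwa [hfe2] at h3
  -- the other label of `g2`
  set k1 := flip g2 (l j1) with hk1
  have hRk1 : ∀ v, v ∈ rest x l → k1 v = e v := fun v hv => by
    rw [hk1, flip_ne _ ((mem_rest.1 hv).2 j1), hR2 v hv]
  have hF3 : Fp G g2 (l j1) := hleaf g2 hR2 j1 (by rw [hg2x, hg2l1])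
  have hk1l0 : k1 (l i0) = true := by rw [hk1, flip_ne _ hl01, hg2l0]
  have hk1x : k1 x = true := by rw [hk1, flip_ne _ hx1.symm, hg2x]
  have hF4 : Fp G k1 (l i0) := hleaf k1 hRk1 i0 (by rw [hk1x, hk1l0])
  have hk2 : flip k1 (l i0) = f := by
    funext v
    by_cases hv : v ∈ rest x l
    · rw [flip_ne _ ((mem_rest.1 hv).2 i0), hRk1 v hv, hfR v hv]
    · by_cases hvx : v = x
      · rw [hvx, flip_ne _ hx0.symm, hk1x, hfx']
      · have : ∃ i, v = l i := by
          by_contra hcon
          exact hv (mem_rest.2 ⟨hvx, fun i hi => hcon ⟨i, hi⟩⟩)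
        obtain ⟨i, rfl⟩ := this
        rw [hfl']
        rcases hall i with rfl | rfl | rfl
        · rw [flip_same, hk1l0]; rfl
        · rw [flip_ne _ hl01.symm, hk1, flip_same, hg2l1]; rfl
        · rw [flip_ne _ hl02.symm, hk1, flip_ne _ hl12.symm, hg2l2]
  have hL2' : Lab3 G false g2 := by
    apply hLf.of_reach G
    rw [← hk2]
    exact Reach3.step _ (l j1) _ hF3 (Reach3.one G hF4)
  -- energies
  have hE1 := En_flip3 G d (a i0)
  rw [hbad2, hdeg, ← he] at hE1
  have hE2 := En_flip3 G g1 (l j2)
  rw [hfe1] at hE2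
  have hE3 := En_flip3 G g2 x
  rw [hfe2] at hE3
  have hb2 : (G.degree (l j2) : ℤ) + 1 = 2 * (bad G g1 (l j2)).card := by
    have h3 := hev (l j2)
    have h4 := card_bad_flip_self3 G e (l j2)
    rw [← hg1] at h4
    have h5 : (G.degree (l j2) = 1 ∧ (bad G e (l j2)).card = 0) ∨
        (G.degree (l j2) = 3 ∧ (bad G e (l j2)).card = 1) := by
      by_cases haj : a j2 = x
      · left
        have h6 := st.deg_pl j2 haj
        exact ⟨h6, by omega⟩
      · right
        have h6 := st.deg_l j2 haj
        refine ⟨h6, ?_⟩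
        have h7 : a j2 ∈ bad G e (l j2) :=
          (mem_bad G e _ _).2 ⟨(st.nl j2 _).2 (Or.inr (Or.inl rfl)), by rw [heA j2 haj, hel]⟩
        have h8 : 1 ≤ (bad G e (l j2)).card := Finset.card_pos.2 ⟨_, h7⟩
        omega
    rcases h5 with ⟨h6, h7⟩ | ⟨h6, h7⟩ <;> omega
  have hb3 : (bad G g2 x).card = 2 := by
    have h3 : bad G g2 x = {l i0, l j1} := by
      ext w
      rw [mem_bad, hg2x, Finset.mem_insert, Finset.mem_singleton]
      constructor
      · rintro ⟨h4, h5⟩
        obtain ⟨i, rfl⟩ := (st.nx w).1 h4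
        rcases hall i with rfl | rfl | rfl
        · exact Or.inl rfl
        · exact Or.inr rfl
        · rw [hg2l2] at h5; exact absurd h5 (by simp)
      · rintro (rfl | rfl)
        · exact ⟨(st.nx _).2 ⟨i0, rfl⟩, hg2l0⟩
        · exact ⟨(st.nx _).2 ⟨j1, rfl⟩, hg2l1⟩
    rw [h3, Finset.card_pair hl01]
  rw [hb3, st.deg_x] at hE3
  by_contra hcon
  push Not at hcon
  have hlt : En G g2 < En G c' := by
    push_cast at hE1 hE3
    omega
  exact hc.min g2 hlt true hL2 hL2'

/-- **Reaction lemma.** A state (at most one flippable vertex) whose energy is too small for the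
forced flips of the chain `p` contradicts the absence of balanced colourings. -/
theorem react_false (hG : Deg13 G) (hB : NoBal3 G) (hi0 : a i0 ≠ x) {c' : V → Bool}
    (hc : Crit3 G c') {d : V → Bool} (hst : CSt c x l a b i0 G d ∨ DSt c x l a b i0 G d)
    {p : ℕ → V} {n : ℕ} (hn : 1 ≤ n) (hp0 : p 0 = a i0)
    (hp1 : p 1 ∈ rest x l)
    (hadj : ∀ i, i < n → G.Adj (p i) (p (i + 1)))
    (hinj : ∀ i j, 1 ≤ i → i ≤ n → 1 ≤ j → j ≤ n → p i = p j → i = j)
    (hne : ∀ i, 1 ≤ i → i < n → p (i - 1) ≠ p (i + 1))
    (hcol : ∀ i, i < n → d (p (i + 1)) ≠ d (p i))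
    (hE : En G d + 2 < En G c' + 2 * n) : False := by
  obtain ⟨d', H, T, hR, hD, hF⟩ := react st hG hB hi0 _ d ∅ 0 rfl
    (RC.start (x := x) (l := l) (a := a) (b := b) (i0 := i0) (G := G) (d₀ := d)) hst
  have h1 := end_energy st hG hB hi0 hD hF hc
  have h2 := hR.energy hG
  have h3 := hR.card_le
  have hadj' : G.Adj (a i0) (p 1) := by
    have := hadj 0 (by omega)
    rwa [hp0] at this
  -- the first vertex of the chain is flipped
  have hfirst : p 1 ∈ H := by
    by_contra hcon
    have e1 := hR.same hcon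
    have hda : d (a i0) = false := by
      rcases hst with h | h
      · exact h.da0
      · exact h.da0
    have c1 := hcol 0 (by omega)
    rw [hp0, hda] at c1
    have hlne : l i0 ≠ p 1 := fun h => (mem_rest.1 hp1).2 i0 h.symm
    refine not_Fp_of_two_opp hG hlne (y := a i0)
      ((st.nl i0 (a i0)).2 (Or.inr (Or.inl rfl))).symm hadj' ?_ ?_ hF
    · rw [hD.dl, hD.da0]; simp
    · rw [e1, hD.da0]; exact c1
  have hforced := hR.forced hG hp0 hadj hne hcol
  have hall : ∀ i, 1 ≤ i → i ≤ n → p i ∈ H := by
    intro i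
    induction i with
    | zero => intro h; omega
    | succ i ih =>
      intro _ hi
      by_cases h0 : i = 0
      · rw [h0]; exact hfirst
      · exact hforced i (by omega) (by omega) (ih (by omega) (by omega))
  have hcard : n ≤ H.card := by
    have h4 : (Finset.Icc 1 n).image p ⊆ H := by
      intro w hw
      obtain ⟨i, hi, rfl⟩ := Finset.mem_image.1 hw
      rw [Finset.mem_Icc] at hi
      exact hall i hi.1 hi.2
    have h5 := Finset.card_le_card h4
    rw [Finset.card_image_of_injOn, Nat.card_Icc] at h5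
    · omega
    · intro i hi j hj hij
      rw [Finset.mem_coe, Finset.mem_Icc] at hi hj
      exact hinj i j hi.1 hi.2 hj.1 hj.2 hij
  omega

end

end Pool.BLE
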