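import Pool.Agent.BLE.React

/-!
The reaction lemma in terms of a set `S` flipped outside the star and of the costs of the table
lemma.
-/

set_option autoImplicit false
set_option linter.unusedSectionVars false

namespace Pool.BLE

open Finset Pool.Agent.IVT Pool.Agent.BLN

variable {V : Type} [Fintype V] [DecidableEq V] {G : SimpleGraph V} [DecidableRel G.Adj]

/-- No defect at `v` after the flip of `S`: less than half of the neighbours are own neighbours,
and a special vertex of another pair than `i0` has no own neighbour. -/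
def Fine (G : SimpleGraph V) [DecidableRel G.Adj] (c : V → Bool) (x : V) (l a b : Fin 3 → V)
    (i0 : Fin 3) (S : Finset V) (v : V) : Prop :=
  2 * cost G c x l S v < G.degree v ∧
    ((∃ j, j ≠ i0 ∧ (v = a j ∨ v = b j)) → cost G c x l S v = 0)

section

variable {c : V → Bool} {x : V} {l a b : Fin 3 → V} (st : Star3 G c x l a b) {i0 : Fin 3}
  {S : Finset V}

include st

/-- Own neighbours in the rest and possibly the leaf. -/
theorem bad_col_subset (ξ : Bool) {v : V} (hv : v ∈ rest x l) :
    bad G (col c x l a b S ξ) v ⊆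
      ((rest x l).filter fun w => G.Adj v w ∧ flips S c w = flips S c v) ∪
        ((univ : Finset (Fin 3)).filter (fun i => (v = a i ∨ v = b i) ∧
          lam a b S ξ i = flips S c v)).image l := by
  have hvx : v ≠ x := (mem_rest.1 hv).1
  intro w hw
  rw [mem_bad] at hw
  obtain ⟨h2, h3⟩ := hw
  rw [st.col_R S ξ hv] at h3
  by_cases hwR : w ∈ rest x l
  · rw [st.col_R S ξ hwR] at h3
    exact mem_union_left _ (by simp [hwR, h2, h3])
  · rw [mem_rest] at hwR
    have hwx : w ≠ x := by
      intro h6
      rw [h6] at h2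
      obtain ⟨i, hi⟩ := (st.nx v).1 h2.symm
      exact (mem_rest.1 hv).2 i hi
    have hwl : ∃ i, w = l i := by
      by_contra h4
      exact hwR ⟨hwx, fun i h5 => h4 ⟨i, h5⟩⟩
    obtain ⟨i, rfl⟩ := hwl
    rw [st.col_l] at h3
    have h4 := (st.nl i v).1 h2.symm
    have h5 : v = a i ∨ v = b i := by
      rcases h4 with h4 | h4
      · exact absurd h4 hvx
      · exact h4
    exact mem_union_right _ (mem_image_of_mem _ (by simp [h5, h3]))

theorem bad_col_card (ξ : Bool) {v : V} (hv : v ∈ rest x l) :
    (bad G (col c x l a b S ξ) v).card ≤ cost G c x l S v +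
      ((univ : Finset (Fin 3)).filter (fun i => (v = a i ∨ v = b i) ∧
          lam a b S ξ i = flips S c v)).card := by
  have h0 := (card_le_card (bad_col_subset st (S := S) ξ hv)).trans (card_union_le _ _)
  have h2 : ((rest x l).filter fun w => G.Adj v w ∧ flips S c w = flips S c v).card =
      cost G c x l S v := ownIn_flip G c (rest x l) S v
  rw [h2] at h0
  exact h0.trans (Nat.add_le_add_left card_image_le _)

theorem special_card_le (ξ : Bool) {v : V} (hv : v ∈ rest x l) :
    ((univ : Finset (Fin 3)).filter (fun i => (v = a i ∨ v = b i) ∧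
          lam a b S ξ i = flips S c v)).card ≤ 1 := by
  refine card_le_one.2 fun j hj j' hj' => ?_
  simp only [mem_filter, mem_univ, true_and] at hj hj'
  exact st.leaf_unique (mem_rest.1 hv).1 hj.1 hj'.1

variable (hS : S ⊆ rest x l) (ha : a i0 ∈ S) (hb : b i0 ∉ S)
  (hA : ∀ j, j ≠ i0 → a j ∉ S) (hB : ∀ j, j ≠ i0 → b j ∉ S)

include ha hb hA hB

omit st in
theorem lam_i0 (ξ : Bool) : lam a b S ξ i0 = true := by
  unfold lam
  rw [if_pos ⟨ha, hb⟩]

omit st in
theorem lam_ne (ξ : Bool) {j : Fin 3} (hj : j ≠ i0) : lam a b S ξ j = !ξ := by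
  unfold lam
  rw [if_neg (fun h => hA j hj h.1), if_neg (fun h => hB j hj h.2)]

omit st in
theorem lam_false (j : Fin 3) : lam a b S false j = true := by
  by_cases hj : j = i0
  · rw [hj]; exact lam_i0 ha hb hA hB false
  · rw [lam_ne ha hb hA hB false hj]; rfl

theorem tw_col : tw x l i0 (col c x l a b S false) = col c x l a b S true := by
  funext v
  by_cases hv : v ∈ rest x l
  · rw [tw_rest i0 hv, st.col_R S _ hv, st.col_R S _ hv]
  · by_cases hvx : v = x
    · rw [hvx, tw_x, st.col_x]
    · have : ∃ i, v = l i := by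
        by_contra hcon
        exact hv (mem_rest.2 ⟨hvx, fun i hi => hcon ⟨i, hi⟩⟩)
      obtain ⟨i, rfl⟩ := this
      rw [st.col_l]
      by_cases hi : i = i0
      · rw [hi, tw_l0 st i0, st.col_l, lam_i0 ha hb hA hB, lam_i0 ha hb hA hB]
      · rw [tw_l st i0 hi, lam_ne ha hb hA hB true hi]; rfl

include hS

theorem sgn_col : sgn true (col c x l a b S false) = 2 - 2 * kk c S := by
  have h0 : beta a b S = 0 := by
    unfold beta
    rw [card_eq_zero, filter_eq_empty_iff]
    rintro i _ ⟨_, h2⟩
    by_cases hi : i = i0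
    · rw [hi] at h2; exact hb h2
    · exact hB i hi h2
  rw [sgn_eq, st.sum_univ, st.col_x, st.col_l, st.col_l, st.col_l, st.sum_lam_false, h0,
    sum_congr rfl (fun v hv => by rw [st.col_R S false hv]), st.sum_flip hS]
  simp only [sg]
  push_cast
  norm_num
  ring

variable (hbb : cost G c x l S (b i0) = 0)

include hbb

theorem st_of_set (hi0 : a i0 ≠ x) : St c x l a b i0 G (col c x l a b S false) := by
  have hb0 : b i0 ≠ x := fun h => hi0 ((st.a_eq_iff i0).2 h)
  have hbR := st.b_rest i0 hb0
  have hfb : flips S c (b i0) = false := by simp [flips, hb, st.cb i0 hb0]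
  refine
    { dx := st.col_x S false
      dl := fun i => by rw [st.col_l]; exact lam_false ha hb hA hB i
      da0 := by rw [st.col_R S false (st.a_rest i0 hi0)]; simp [flips, ha, st.ca i0 hi0]
      db0 := by rw [st.col_R S false hbR]; exact hfb
      da := fun j hj haj => by
        rw [st.col_R S false (st.a_rest j haj)]; simp [flips, hA j hj, st.ca j haj]
      db := fun j hj hbj => by
        rw [st.col_R S false (st.b_rest j hbj)]; simp [flips, hB j hj, st.cb j hbj]
      bb := ?_ }
  have h1 := bad_col_card st (S := S) false hbR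
  have h2 : ((univ : Finset (Fin 3)).filter (fun i => (b i0 = a i ∨ b i0 = b i) ∧
      lam a b S false i = flips S c (b i0))) = ∅ := by
    rw [filter_eq_empty_iff]
    rintro i _ ⟨_, h3⟩
    rw [lam_false ha hb hA hB, hfb] at h3
    exact absurd h3 (by simp)
  rw [h2, card_empty, hbb] at h1
  exact card_eq_zero.1 (by omega)

/-- A flippable vertex of one of the two colourings is not fine. -/
theorem not_fine_of_Fp (hG : Deg13 G) (hi0 : a i0 ≠ x) (ξ : Bool) {v : V}
    (hv : v ∈ rest x l) (hF : Fp G (col c x l a b S ξ) v) : ¬ Fine G c x l a b i0 S v := by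
  rintro ⟨h1, h2⟩
  have h3 := bad_col_card st (S := S) ξ hv
  have h4 := special_card_le st (S := S) ξ hv
  have hb0 : b i0 ≠ x := fun h => hi0 ((st.a_eq_iff i0).2 h)
  unfold Fp at hF
  by_cases hs : ∃ i, (v = a i ∨ v = b i) ∧ lam a b S ξ i = flips S c v
  · obtain ⟨i, h5, h6⟩ := hs
    have hdeg : G.degree v = 3 := by
      have h7 := st.ne_x_of_special (mem_rest.1 hv).1 h5
      rcases h5 with h5 | h5
      · rw [h5]; exact st.deg_a i h7
      · rw [h5]; exact st.deg_b i (fun h => h7 ((st.a_eq_iff i).2 h))
    by_cases hi : i = i0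
    · exfalso
      rw [hi, lam_i0 ha hb hA hB] at h6
      rw [hi] at h5
      rcases h5 with h5 | h5
      · rw [h5] at h6
        simp [flips, ha, st.ca i0 hi0] at h6
      · rw [h5] at h6
        simp [flips, hb, st.cb i0 hb0] at h6
    · have h8 := h2 ⟨i, hi, h5⟩
      omega
  · have h5 : ((univ : Finset (Fin 3)).filter (fun i => (v = a i ∨ v = b i) ∧
        lam a b S ξ i = flips S c v)) = ∅ := by
      rw [filter_eq_empty_iff]
      intro i _ h6
      exact hs ⟨i, h6⟩
    rw [h5, card_empty] at h3
    omega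

omit hbb in
/-- The vertices of the star are not flippable. -/
theorem star_not_Fp (hi0 : a i0 ≠ x) (ξ : Bool) {v : V}
    (hv : v ∉ rest x l) : ¬ Fp G (col c x l a b S ξ) v := by
  by_cases hvx : v = x
  · rw [hvx]
    apply not_Fp_of_card_le_one st.deg_x
    have h1 : bad G (col c x l a b S ξ) x ⊆
        ((univ : Finset (Fin 3)).filter fun i : Fin 3 => lam a b S ξ i = ξ).image l := by
      intro w hw
      rw [mem_bad] at hw
      obtain ⟨i, rfl⟩ := (st.nx w).1 hw.1
      rw [st.col_l, st.col_x] at hw
      exact mem_image_of_mem _ (by simp [hw.2])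
    refine (card_le_card h1).trans (card_image_le.trans ?_)
    refine card_le_one.2 fun i hi j hj => ?_
    simp only [mem_filter, mem_univ, true_and] at hi hj
    have key : ∀ i, lam a b S ξ i = ξ → i = i0 := by
      intro i hi
      by_contra hne
      rw [lam_ne ha hb hA hB ξ hne] at hi
      cases ξ <;> simp at hi
    rw [key i hi, key j hj]
  · have : ∃ i, v = l i := by
      by_contra hcon
      exact hv (mem_rest.2 ⟨hvx, fun i hi => hcon ⟨i, hi⟩⟩)
    obtain ⟨i, rfl⟩ := this
    by_cases hai : a i = x
    · have h1 := st.own_pl hS ξ i hai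
      unfold Fp
      omega
    · exact not_Fp_of_card_le_one (st.deg_l i hai) (st.own_l S ξ i hai)

/-- A special vertex of another pair with at most one own neighbour in the rest is not flippable
if its leaf has the other colour. -/
theorem special_not_Fp (ξ : Bool) {v : V} (hv : v ∈ rest x l) (hdeg : G.degree v = 3)
    (hcost : cost G c x l S v ≤ 1)
    (hcol : ∀ i, (v = a i ∨ v = b i) → lam a b S ξ i ≠ flips S c v) :
    ¬ Fp G (col c x l a b S ξ) v := by
  have h3 := bad_col_card st (S := S) ξ hv
  have h5 : ((univ : Finset (Fin 3)).filter (fun i => (v = a i ∨ v = b i) ∧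
      lam a b S ξ i = flips S c v)) = ∅ := by
    rw [filter_eq_empty_iff]
    rintro i _ ⟨h6, h7⟩
    exact hcol i h6 h7
  rw [h5, card_empty] at h3
  exact not_Fp_of_card_le_one hdeg (by omega)

theorem state_of_set (hG : Deg13 G) (hi0 : a i0 ≠ x)
    (hone : ∀ v ∈ rest x l, ∀ w ∈ rest x l, ¬ Fine G c x l a b i0 S v →
      ¬ Fine G c x l a b i0 S w → v = w)
    (hsp : ∀ j, j ≠ i0 → a j ≠ x → cost G c x l S (a j) ≤ 1 ∧ cost G c x l S (b j) ≤ 1)
    (hk : (kk c S = 1 ∧ ∀ v ∈ rest x l, ¬ Fine G c x l a b i0 S v → flips S c v = false) ∨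
      (kk c S = 0 ∧ ∀ v ∈ rest x l, ¬ Fine G c x l a b i0 S v → flips S c v = true)) :
    CSt c x l a b i0 G (col c x l a b S false) ∨ DSt c x l a b i0 G (col c x l a b S false) := by
  have hst := st_of_set st hS ha hb hA hB hbb hi0
  have htw := tw_col st ha hb hA hB
  have hsum := sgn_col st hS ha hb hA hB
  have hmem : ∀ (ξ s : Bool) (v : V), v ∈ Fl3 G s (col c x l a b S ξ) →
      v ∈ rest x l ∧ ¬ Fine G c x l a b i0 S v ∧ flips S c v = s := by
    intro ξ s v hv
    rw [mem_Fl3] at hv
    have hvR : v ∈ rest x l := by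
      by_contra hcon
      exact star_not_Fp st hS ha hb hA hB hi0 ξ hcon hv.1
    refine ⟨hvR, not_fine_of_Fp st hS ha hb hA hB hbb hG hi0 ξ hvR hv.1, ?_⟩
    rw [← hv.2, st.col_R S ξ hvR]
  have hcard : ∀ (ξ s : Bool), (Fl3 G s (col c x l a b S ξ)).card ≤ 1 := by
    intro ξ s
    refine card_le_one.2 fun v hv w hw => ?_
    obtain ⟨h1, h2, _⟩ := hmem ξ s v hv
    obtain ⟨h3, h4, _⟩ := hmem ξ s w hw
    exact hone v h1 w h3 h2 h4
  rcases hk with ⟨hk, hcol⟩ | ⟨hk, hcol⟩
  · right
    refine { toSt := hst, sum := by rw [hsum, hk]; norm_num, not := ?_, one := ?_, sp := ?_ }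
    · rw [eq_empty_iff_forall_notMem]
      intro v hv
      obtain ⟨h1, h2, h3⟩ := hmem false true v hv
      rw [hcol v h1 h2] at h3
      exact absurd h3 (by simp)
    · rw [htw]; exact hcard true false
    · intro j hj hbj
      have haj : a j ≠ x := fun h => hbj ((st.a_eq_iff j).1 h)
      refine special_not_Fp st hS ha hb hA hB hbb false (st.b_rest j hbj) (st.deg_b j hbj)
        (hsp j hj haj).2 ?_
      intro i _ h2
      rw [lam_false ha hb hA hB] at h2
      simp [flips, hB j hj, st.cb j hbj] at h2
  · left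
    refine { toSt := hst, sum := by rw [hsum, hk]; norm_num, nof := ?_, one := ?_, sp := ?_ }
    · rw [htw, eq_empty_iff_forall_notMem]
      intro v hv
      obtain ⟨h1, h2, h3⟩ := hmem true false v hv
      rw [hcol v h1 h2] at h3
      exact absurd h3 (by simp)
    · exact hcard false true
    · intro j hj haj
      rw [htw]
      refine special_not_Fp st hS ha hb hA hB hbb true (st.a_rest j haj) (st.deg_a j haj)
        (hsp j hj haj).1 ?_
      intro i h1 h2
      have hij : i = j := st.leaf_unique (mem_rest.1 (st.a_rest j haj)).1 h1 (Or.inl rfl)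
      rw [hij, lam_ne ha hb hA hB true hj] at h2
      simp [flips, hA j hj, st.ca j haj] at h2

/-- **Reaction lemma** for a set `S` flipped outside of the star. -/
theorem react_set (hG : Deg13 G) (hN : NoBal3 G) (hi0 : a i0 ≠ x) {c' : V → Bool}
    (hc : Crit3 G c')
    (hone : ∀ v ∈ rest x l, ∀ w ∈ rest x l, ¬ Fine G c x l a b i0 S v →
      ¬ Fine G c x l a b i0 S w → v = w)
    (hsp : ∀ j, j ≠ i0 → a j ≠ x → cost G c x l S (a j) ≤ 1 ∧ cost G c x l S (b j) ≤ 1)
    (hk : (kk c S = 1 ∧ ∀ v ∈ rest x l, ¬ Fine G c x l a b i0 S v → flips S c v = false) ∨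
      (kk c S = 0 ∧ ∀ v ∈ rest x l, ¬ Fine G c x l a b i0 S v → flips S c v = true))
    {p : ℕ → V} {n : ℕ} (hn : 1 ≤ n) (hp0 : p 0 = a i0) (hpS : ∀ i, i ≤ n → p i ∈ S)
    (hadj : ∀ i, i < n → G.Adj (p i) (p (i + 1)))
    (hinj : ∀ i j, i ≤ n → j ≤ n → p i = p j → i = j)
    (hcol : ∀ i, i < n → c (p (i + 1)) ≠ c (p i))
    (hE : En G (col c x l a b S false) + 2 < En G c' + 2 * n) : False := by
  refine react_false st hG hN hi0 hc (state_of_set st hS ha hb hA hB hbb hG hi0 hone hsp hk)
    hn hp0 (hS (hpS 1 hn)) hadj (fun i j _ hi _ hj h => hinj i j hi hj h)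
    (fun i _ hi h => by have := hinj (i - 1) (i + 1) (by omega) (by omega) h; omega) ?_ hE
  intro i hi
  rw [st.col_R S false (hS (hpS i (by omega))), st.col_R S false (hS (hpS (i + 1) (by omega)))]
  have h1 := hcol i hi
  have h2 := hpS i (by omega)
  have h3 := hpS (i + 1) (by omega)
  simp only [flips, h2, h3, if_true]
  intro h4
  exact h1 (by simpa using h4)

end

/-! ### Energy of a flipped path -/

/-- One flip. -/
theorem En_flip_le (g : V → Bool) (v : V) {k m : ℕ} (hd : G.degree v ≤ m)
    (hk : k ≤ (bad G g v).card) : (En G (flip g v) : ℤ) ≤ En G g + 2 * m - 4 * k := by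
  have h := En_flip3 G g v
  omega

theorem flips_insert (g : V → Bool) {S : Finset V} {v : V} (hv : v ∉ S) :
    flips (insert v S) g = flip (flips S g) v := by
  funext w
  by_cases hw : w = v
  · subst hw
    rw [flip_same]
    simp [flips, hv]
  · rw [flip_ne _ hw]
    simp [flips, hw]

/-- Flipping an alternating path one vertex after the other. -/
theorem En_path_le (hG : Deg13 G) (g : V → Bool) (p : ℕ → V) (n : ℕ)
    (hadj : ∀ i, i < n → G.Adj (p i) (p (i + 1)))
    (hinj : ∀ i j, i ≤ n → j ≤ n → p i = p j → i = j)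
    (hcol : ∀ i, i < n → g (p (i + 1)) ≠ g (p i))
    (h0 : 1 ≤ (bad G g (p 0)).card) :
    ∀ k, k ≤ n + 1 → En G (flips ((Finset.range k).image p) g) ≤ En G g + 2 * k := by
  intro k
  induction k with
  | zero =>
    intro _
    have : flips ((Finset.range 0).image p) g = g := by
      funext v; simp [flips]
    rw [this]
    omega
  | succ k ih =>
    intro hk
    have h1 := ih (by omega)
    have hnot : p k ∉ (Finset.range k).image p := by
      intro h
      obtain ⟨i, hi, h2⟩ := Finset.mem_image.1 h
      rw [Finset.mem_range] at hi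
      have := hinj i k (by omega) (by omega) h2
      omega
    rw [Finset.range_add_one, Finset.image_insert, flips_insert g hnot]
    have hdeg : G.degree (p k) ≤ 3 := by rcases hG (p k) with h | h <;> omega
    have hown : 1 ≤ (bad G (flips ((Finset.range k).image p) g) (p k)).card := by
      rcases Nat.eq_zero_or_pos k with h2 | h2
      · subst h2
        have : flips ((Finset.range 0).image p) g = g := by
          funext v; simp [flips]
        rw [this]
        exact h0
      · have h3 : p (k - 1) ∈ (Finset.range k).image p :=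
          Finset.mem_image_of_mem p (Finset.mem_range.2 (by omega))
        have h4 := hadj (k - 1) (by omega)
        have h5 := hcol (k - 1) (by omega)
        rw [Nat.sub_add_cancel h2] at h4 h5
        apply Finset.card_pos.2
        refine ⟨p (k - 1), (mem_bad G _ _ _).2 ⟨h4.symm, ?_⟩⟩
        simp only [flips, h3, hnot, if_true, if_false]
        cases h6 : g (p k) <;> cases h7 : g (p (k - 1)) <;> simp_all
    have h2 := En_flip_le _ (p k) hdeg hown
    omega

/-- As before, where the last vertex is a pendant or has an own neighbour outside of the path. -/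
theorem En_path_le' (hG : Deg13 G) (g : V → Bool) (p : ℕ → V) (n : ℕ) (hn : 1 ≤ n)
    (hadj : ∀ i, i < n → G.Adj (p i) (p (i + 1)))
    (hinj : ∀ i j, i ≤ n → j ≤ n → p i = p j → i = j)
    (hcol : ∀ i, i < n → g (p (i + 1)) ≠ g (p i))
    (h0 : 1 ≤ (bad G g (p 0)).card)
    (hlast : G.degree (p n) = 1 ∨ ∃ m, G.Adj (p n) m ∧ g m = g (p n) ∧ ∀ i, i < n → m ≠ p i) :
    En G (flips ((Finset.range (n + 1)).image p) g) + 2 ≤ En G g + 2 * n := by
  have h1 := En_path_le hG g p n hadj hinj hcol h0 n (by omega)
  have hnot : p n ∉ (Finset.range n).image p := by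
    intro h
    obtain ⟨i, hi, h2⟩ := Finset.mem_image.1 h
    rw [Finset.mem_range] at hi
    have := hinj i n (by omega) (by omega) h2
    omega
  rw [Finset.range_add_one, Finset.image_insert, flips_insert g hnot]
  have h3 : p (n - 1) ∈ (Finset.range n).image p :=
    Finset.mem_image_of_mem p (Finset.mem_range.2 (by omega))
  have h4 := hadj (n - 1) (by omega)
  have h5 := hcol (n - 1) (by omega)
  rw [Nat.sub_add_cancel hn] at h4 h5
  have h6 : p (n - 1) ∈ bad G (flips ((Finset.range n).image p) g) (p n) := by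
    refine (mem_bad G _ _ _).2 ⟨h4.symm, ?_⟩
    simp only [flips, h3, hnot, if_true, if_false]
    cases h6 : g (p n) <;> cases h7 : g (p (n - 1)) <;> simp_all
  rcases hlast with h7 | ⟨m, h7, h8, h9⟩
  · have h10 := En_flip_le (flips ((Finset.range n).image p) g) (p n) (m := 1) (k := 1)
      (le_of_eq h7) (Finset.card_pos.2 ⟨_, h6⟩)
    omega
  · have hm : m ∉ (Finset.range n).image p := by
      intro h
      obtain ⟨i, hi, h2⟩ := Finset.mem_image.1 h
      exact h9 i (Finset.mem_range.1 hi) h2.symm
    have h10 : ({p (n - 1), m} : Finset V) ⊆ bad G (flips ((Finset.range n).image p) g) (p n) := by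
      intro w hw
      rw [Finset.mem_insert, Finset.mem_singleton] at hw
      rcases hw with rfl | rfl
      · exact h6
      · refine (mem_bad G _ _ _).2 ⟨h7, ?_⟩
        simp only [flips, hm, hnot, if_false]
        exact h8
    have h11 : p (n - 1) ≠ m := fun h => hm (h ▸ h3)
    have h12 := Finset.card_le_card h10
    rw [Finset.card_pair h11] at h12
    have hdeg : G.degree (p n) ≤ 3 := by rcases hG (p n) with h | h <;> omega
    have h13 := En_flip_le (flips ((Finset.range n).image p) g) (p n) hdeg h12
    omega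

section

variable {c : V → Bool} {x : V} {l a b : Fin 3 → V} (st : Star3 G c x l a b) {i0 : Fin 3}
  {S : Finset V}

include st in
/-- The flipped colouring as a flip of the star colouring with leaves `true`. -/
theorem col_eq_flips (hS : S ⊆ rest x l) (ha : a i0 ∈ S) (hb : b i0 ∉ S)
    (hA : ∀ j, j ≠ i0 → a j ∉ S) (hB : ∀ j, j ≠ i0 → b j ∉ S) :
    col c x l a b S false = flips S (starCol c x l false) := by
  funext v
  by_cases hv : v ∈ rest x l
  · rw [st.col_R S false hv]
    have h1 := mem_rest.1 hv
    have h2 : starCol c x l false v = c v := by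
      unfold starCol
      rw [if_neg h1.1, if_neg]
      rintro ⟨i, hi⟩
      exact h1.2 i hi
    simp only [flips, h2]
  · have h3 : v ∉ S := fun h => hv (hS h)
    simp only [flips, h3, if_false]
    by_cases hvx : v = x
    · rw [hvx, st.col_x]
      simp [starCol]
    · have : ∃ i, v = l i := by
        by_contra hcon
        exact hv (mem_rest.2 ⟨hvx, fun i hi => hcon ⟨i, hi⟩⟩)
      obtain ⟨i, rfl⟩ := this
      rw [st.col_l, lam_false ha hb hA hB]
      unfold starCol
      rw [if_neg hvx, if_pos ⟨i, rfl⟩]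
      rfl

include st in
/-- In the star colouring with leaves `true` the special vertex `a i` has the own neighbour
`l i`. -/
theorem own_a_star (hi : a i0 ≠ x) : 1 ≤ (bad G (starCol c x l false) (a i0)).card := by
  apply Finset.card_pos.2
  refine ⟨l i0, (mem_bad G _ _ _).2 ⟨((st.nl i0 (a i0)).2 (Or.inr (Or.inl rfl))).symm, ?_⟩⟩
  have h1 := mem_rest.1 (st.a_rest i0 hi)
  unfold starCol
  rw [if_neg (st.l_ne_x i0), if_pos ⟨i0, rfl⟩, if_neg h1.1, if_neg, st.ca i0 hi]
  · rfl
  · rintro ⟨i, hi⟩
    exact h1.2 i hi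

end

end Pool.BLE
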